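import Mathlib
import Pool.Agent.H468R2.KA.P_F_vt

set_option autoImplicit false
set_option linter.unusedSectionVars false

/-!
# Stabilizers and the topological Vaught conjecture: Vaught transforms and the ranked relations
-/

namespace Pool.Agent.V8H42.TV

open Set Filter Topology MeasureTheory
open scoped Pointwise

/-- nonmeagerly many elements of `V` move `x` into `B` -/
def NM {G X : Type} [TopologicalSpace G] [SMul G X] (V : Set G) (x : X) (B : Set X) : Prop :=
  ¬ IsMeagre ({g : G | g • x ∈ B} ∩ V)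

/-- a countable base of nonempty open sets -/
structure Base (G : Type) [TopologicalSpace G] where
  V : ℕ → Set G
  isOpen : ∀ k, IsOpen (V k)
  ne : ∀ k, (V k).Nonempty
  base : ∀ O : Set G, IsOpen O → ∀ g ∈ O, ∃ k, g ∈ V k ∧ V k ⊆ O

/-- a base at the identity of open symmetric sets -/
structure Nb (G : Type) [TopologicalSpace G] [Group G] where
  U : ℕ → Set G
  isOpen : ∀ m, IsOpen (U m)
  one : ∀ m, (1 : G) ∈ U m
  inv : ∀ m, ∀ g ∈ U m, g⁻¹ ∈ U m
  mul : ∀ m, ∀ g ∈ U (m + 1), ∀ h ∈ U (m + 1), g * h ∈ U m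
  base : ∀ O : Set G, IsOpen O → (1 : G) ∈ O → ∃ m, U m ⊆ O

theorem exists_base (G : Type) [TopologicalSpace G] [SecondCountableTopology G] [Nonempty G] :
    Nonempty (Base G) := by
  obtain ⟨b, hbc, hbe, hb⟩ := TopologicalSpace.exists_countable_basis G
  have hne : b.Nonempty := by
    obtain ⟨g⟩ := (inferInstance : Nonempty G)
    obtain ⟨v, hv, -, -⟩ := hb.exists_subset_of_mem_open (mem_univ g) isOpen_univ
    exact ⟨v, hv⟩
  obtain ⟨V, hV⟩ := hbc.exists_eq_range hne
  refine ⟨⟨V, fun k => hb.isOpen (hV ▸ mem_range_self k), fun k => ?_, fun O hO g hg => ?_⟩⟩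
  · rw [nonempty_iff_ne_empty]
    intro h
    exact hbe (h ▸ hV ▸ mem_range_self k)
  · obtain ⟨v, hv, hgv, hvO⟩ := hb.exists_subset_of_mem_open hg hO
    rw [hV] at hv
    obtain ⟨k, rfl⟩ := hv
    exact ⟨k, hgv, hvO⟩

theorem exists_nb (G : Type) [TopologicalSpace G] [Group G] [IsTopologicalGroup G]
    [FirstCountableTopology G] : Nonempty (Nb G) := by
  obtain ⟨u, hu, hmul⟩ := IsTopologicalGroup.exists_antitone_basis_nhds_one G
  have hint : ∀ m, (1 : G) ∈ interior (u m) := fun m =>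
    mem_interior_iff_mem_nhds.2 (hu.toHasBasis.mem_of_mem trivial)
  have hm : ∀ m, ∀ g ∈ interior (u (m + 1)), ∀ h ∈ interior (u (m + 1)),
      g * h ∈ interior (u m) := by
    intro m g hg h hh
    refine mem_interior.2 ⟨interior (u (m + 1)) * interior (u (m + 1)), ?_, ?_, ?_⟩
    · exact (Set.mul_subset_mul interior_subset interior_subset).trans (hmul m)
    · exact isOpen_interior.mul_left
    · exact Set.mul_mem_mul hg hh
  refine ⟨⟨fun m => {g | g ∈ interior (u m) ∧ g⁻¹ ∈ interior (u m)}, fun m => ?_, fun m => ?_,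
    fun m g hg => ⟨hg.2, by rw [inv_inv]; exact hg.1⟩, fun m g hg h hh => ⟨hm m g hg.1 h hh.1, ?_⟩,
    fun O hO h1 => ?_⟩⟩
  · exact isOpen_interior.inter (isOpen_interior.preimage continuous_inv)
  · exact ⟨hint m, by rw [inv_one]; exact hint m⟩
  · rw [mul_inv_rev]
    exact hm m _ hh.2 _ hg.2
  · obtain ⟨m, -, hmO⟩ := hu.toHasBasis.mem_iff.1 (hO.mem_nhds h1)
    exact ⟨m, fun g hg => hmO (interior_subset hg.1)⟩

namespace Nb

variable {G : Type} [TopologicalSpace G] [Group G] (ν : Nb G)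

theorem succ_sub (m : ℕ) : ν.U (m + 1) ⊆ ν.U m := fun g hg => by
  have := ν.mul m g hg 1 (ν.one _)
  rwa [mul_one] at this

theorem anti {m n : ℕ} (h : m ≤ n) : ν.U n ⊆ ν.U m := by
  induction n, h using Nat.le_induction with
  | base => exact Subset.rfl
  | succ n _ ih => exact (ν.succ_sub n).trans ih

end Nb

section NMlemmas

variable {G X : Type} [TopologicalSpace G] [Group G] [IsTopologicalGroup G] [MulAction G X]

theorem NM.mono {V W : Set G} {x : X} {B C : Set X} (h : NM V x B) (hV : V ⊆ W) (hB : B ⊆ C) :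
    NM W x C := by
  intro hm
  exact h (hm.mono (fun g hg => ⟨hB hg.1, hV hg.2⟩ :
    {g : G | g • x ∈ B} ∩ V ⊆ {g : G | g • x ∈ C} ∩ W))

theorem NM.translate {V W : Set G} {x : X} {B : Set X} {g : G} (hVW : ∀ v ∈ V, v * g ∈ W)
    (h : NM V (g • x) B) : NM W x B := by
  intro hm
  apply h
  have h1 : IsMeagre ((fun v : G => v * g) ⁻¹' ({u : G | u • x ∈ B} ∩ W)) :=
    hm.preimage_of_isOpenMap (continuous_mul_const g) (isOpenMap_mul_right g)
  refine h1.mono ?_
  rintro v ⟨hv1, hv2⟩
  refine ⟨?_, hVW v hv2⟩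
  show (v * g) • x ∈ B
  rw [mul_smul]
  exact hv1

/-- a nonmeager set of group elements which move `x` into `B` meets every set of comeager many
group elements -/
theorem NM.exists {V : Set G} {x : X} {B : Set X} (h : NM V x B) {P : G → Prop}
    (hP : ∀ᶠ g in residual G, P g) : ∃ g ∈ V, g • x ∈ B ∧ P g := by
  by_contra hcon
  push Not at hcon
  apply h
  show ({g : G | g • x ∈ B} ∩ V)ᶜ ∈ residual G
  filter_upwards [hP] with g hg hgV
  exact hcon g hgV.2 hgV.1 hg

end NMlemmas

section Meas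

variable {G X : Type} [TopologicalSpace G] [Group G] [IsTopologicalGroup G]
  [MeasurableSpace G] [BorelSpace G] [BaireSpace G] [MeasurableSpace X] [MulAction G X]

theorem NM_iff (β : Base G) {V : Set G} (hV : IsOpen V) (x : X) (B : Set X) :
    NM V x B ↔ ∃ k, β.V k ⊆ V ∧ NM (β.V k) x B := by
  constructor
  · intro h
    by_contra hcon
    push Not at hcon
    apply h
    have h1 : IsMeagre (⋃ k ∈ {k | β.V k ⊆ V}, ({g : G | g • x ∈ B} ∩ β.V k)) := by
      refine isMeagre_biUnion (to_countable _) fun k hk => ?_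
      have := hcon k hk
      unfold NM at this
      push Not at this
      exact this
    refine h1.mono ?_
    rintro g ⟨hg1, hg2⟩
    obtain ⟨k, hk1, hk2⟩ := β.base V hV g hg2
    exact mem_biUnion (show k ∈ {k | β.V k ⊆ V} from hk2) ⟨hg1, hk1⟩
  · rintro ⟨k, hk, h⟩
    exact h.mono hk Subset.rfl

/-- Vaught transforms of Borel sets are Borel. -/
theorem meas_NM (β : Base G) (hm : Measurable fun p : G × X => p.1 • p.2) {V : Set G}
    (hV : IsOpen V) {B : Set X} (hB : MeasurableSet B) : MeasurableSet {x | NM V x B} := by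
  have h1 : ∀ k, MeasurableSet {x : X | NM (β.V k) x B} := fun k =>
    Pool.Agent.H468R2.KA.F_vt_gen β.V β.isOpen β.base {p : G × X | p.1 • p.2 ∈ B}
      (hm hB) k
  have h2 : {x : X | NM V x B} = ⋃ k ∈ {k | β.V k ⊆ V}, {x | NM (β.V k) x B} := by
    ext x
    simp only [mem_ofPred_eq, mem_iUnion, exists_prop]
    exact NM_iff β hV x B
  rw [h2]
  exact MeasurableSet.biUnion (to_countable _) fun k _ => h1 k

theorem meas_orb (hm : Measurable fun p : G × X => p.1 • p.2) (x : X) :
    Measurable fun g : G => g • x :=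
  hm.comp (measurable_id.prodMk measurable_const)

/-- localization: a Borel property which holds for nonmeagerly many elements of an open set holds
for comeager many elements of a smaller basic set -/
theorem NM.local (β : Base G) (hm : Measurable fun p : G × X => p.1 • p.2) {V : Set G}
    (hV : IsOpen V) {B : Set X} (hB : MeasurableSet B) {x : X} (h : NM V x B) :
    ∃ k, β.V k ⊆ V ∧ ¬ NM (β.V k) x Bᶜ := by
  obtain ⟨k, hk1, -, hk3⟩ := Pool.Agent.H468R2.KA.F_vt_q β.V β.base {g : G | g • x ∈ B}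
    (meas_orb hm x hB) V hV h
  refine ⟨k, hk1, fun hn => hn (hk3.mono ?_)⟩
  rintro g ⟨hg1, hg2⟩
  exact ⟨hg2, hg1⟩

theorem NM.of_compl (β : Base G) {k : ℕ} {B : Set X} {x : X} (h : ¬ NM (β.V k) x Bᶜ) :
    NM (β.V k) x B := by
  intro hm
  unfold NM at h
  push Not at h
  have h1 : IsMeagre (β.V k) := by
    refine (hm.union h).mono fun g hg => ?_
    by_cases hgB : g • x ∈ B
    · exact Or.inl ⟨hgB, hg⟩
    · exact Or.inr ⟨hgB, hg⟩
  exact not_isMeagre_of_isOpen (β.isOpen k) (β.ne k) h1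

end Meas

section LeDef

variable {G X : Type} [TopologicalSpace G] [Group G] [IsTopologicalGroup G] [MulAction G X]

/-- the base relation -/
def B0 (A : ℕ → Set X) (x : X) (V : Set G) (y : X) (W : Set G) : Prop :=
  ∀ n, (NM V x (A n) → NM W y (A n)) ∧ (NM V x (A n)ᶜ → NM W y (A n)ᶜ)

/-- the ranked relations -/
noncomputable def Le (β : Base G) (A : ℕ → Set X) {ι : Type} {r : ι → ι → Prop}
    (hr : WellFounded r) : ι → X → Set G → X → Set G → Prop :=
  hr.fix fun i ih x V y W => B0 A x V y W ∧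
    ∀ j (hj : r j i), ∀ k, β.V k ⊆ V → ∃ l, β.V l ⊆ W ∧ ih j hj y (β.V l) x (β.V k)

variable (β : Base G) (A : ℕ → Set X) {ι : Type} {r : ι → ι → Prop} (hr : WellFounded r)

theorem Le_iff (i : ι) (x : X) (V : Set G) (y : X) (W : Set G) :
    Le β A hr i x V y W ↔ B0 A x V y W ∧
      ∀ j, r j i → ∀ k, β.V k ⊆ V → ∃ l, β.V l ⊆ W ∧ Le β A hr j y (β.V l) x (β.V k) := by
  unfold Le
  rw [WellFounded.fix_eq]

theorem Le.translate (i : ι) : ∀ (g : G) (x : X) (V W : Set G), (∀ v ∈ V, v * g ∈ W) →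
    Le β A hr i (g • x) V x W := by
  induction i using hr.induction with
  | _ i ih =>
    intro g x V W hVW
    rw [Le_iff]
    refine ⟨fun n => ⟨fun h => h.translate hVW, fun h => h.translate hVW⟩, fun j hj k hk => ?_⟩
    obtain ⟨v, hv⟩ := β.ne k
    have ho : IsOpen {u : G | u * g⁻¹ ∈ β.V k} := (β.isOpen k).preimage (continuous_mul_const _)
    obtain ⟨l, -, hl⟩ := β.base _ ho (v * g) (by
      show v * g * g⁻¹ ∈ β.V k
      rwa [mul_inv_cancel_right])
    refine ⟨l, fun u hu => ?_, ?_⟩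
    · have := hVW _ (hk (hl hu))
      rwa [inv_mul_cancel_right] at this
    · have := ih j hj g⁻¹ (g • x) (β.V l) (β.V k) (fun v hv => hl hv)
      rwa [inv_smul_smul] at this

theorem Le.trans (i : ι) : ∀ (x : X) (V : Set G) (y : X) (W : Set G) (z : X) (O : Set G),
    Le β A hr i x V y W → Le β A hr i y W z O → Le β A hr i x V z O := by
  induction i using hr.induction with
  | _ i ih =>
    intro x V y W z O h1 h2
    rw [Le_iff] at h1 h2 ⊢
    refine ⟨fun n => ⟨fun h => (h2.1 n).1 ((h1.1 n).1 h), fun h => (h2.1 n).2 ((h1.1 n).2 h)⟩,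
      fun j hj k hk => ?_⟩
    obtain ⟨l, hl1, hl2⟩ := h1.2 j hj k hk
    obtain ⟨m, hm1, hm2⟩ := h2.2 j hj l hl1
    exact ⟨m, hm1, ih j hj _ _ _ _ _ _ hm2 hl2⟩

theorem Le.mono (i : ι) {x : X} {V : Set G} {y : X} {W V' W' : Set G} (h : Le β A hr i x V y W)
    (hV : V' ⊆ V) (hW : W ⊆ W') : Le β A hr i x V' y W' := by
  rw [Le_iff] at h ⊢
  refine ⟨fun n => ⟨fun h1 => ((h.1 n).1 (h1.mono hV Subset.rfl)).mono hW Subset.rfl,
    fun h1 => ((h.1 n).2 (h1.mono hV Subset.rfl)).mono hW Subset.rfl⟩, fun j hj k hk => ?_⟩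
  obtain ⟨l, hl1, hl2⟩ := h.2 j hj k (hk.trans hV)
  exact ⟨l, hl1.trans hW, hl2⟩

end LeDef

section LeMeas

variable {G X : Type} [TopologicalSpace G] [Group G] [IsTopologicalGroup G]
  [MeasurableSpace G] [BorelSpace G] [BaireSpace G] [MeasurableSpace X] [MulAction G X]

theorem meas_B0 (β : Base G) (hm : Measurable fun p : G × X => p.1 • p.2) {A : ℕ → Set X}
    (hA : ∀ n, MeasurableSet (A n)) {V W : Set G} (hV : IsOpen V) (hW : IsOpen W) :
    MeasurableSet {p : X × X | B0 A p.1 V p.2 W} := by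
  unfold B0
  simp only [ofPred_forall]
  refine MeasurableSet.iInter fun n => ?_
  refine MeasurableSet.inter ?_ ?_
  · have h1 : MeasurableSet {p : X × X | NM V p.1 (A n)} :=
      measurable_fst (meas_NM β hm hV (hA n))
    have h2 : MeasurableSet {p : X × X | NM W p.2 (A n)} :=
      measurable_snd (meas_NM β hm hW (hA n))
    exact MeasurableSet.imp h1 h2
  · have h1 : MeasurableSet {p : X × X | NM V p.1 (A n)ᶜ} :=
      measurable_fst (meas_NM β hm hV (hA n).compl)
    have h2 : MeasurableSet {p : X × X | NM W p.2 (A n)ᶜ} :=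
      measurable_snd (meas_NM β hm hW (hA n).compl)
    exact MeasurableSet.imp h1 h2

theorem meas_Le (β : Base G) (hm : Measurable fun p : G × X => p.1 • p.2) {A : ℕ → Set X}
    (hA : ∀ n, MeasurableSet (A n)) {ι : Type} [Countable ι] {r : ι → ι → Prop}
    (hr : WellFounded r) (i : ι) : ∀ V W : Set G, IsOpen V → IsOpen W →
    MeasurableSet {p : X × X | Le β A hr i p.1 V p.2 W} := by
  induction i using hr.induction with
  | _ i ih =>
    intro V W hV hW
    have h1 : {p : X × X | Le β A hr i p.1 V p.2 W} = {p : X × X | B0 A p.1 V p.2 W} ∩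
        ⋂ j ∈ {j | r j i}, ⋂ k ∈ {k | β.V k ⊆ V}, ⋃ l ∈ {l | β.V l ⊆ W},
          {p : X × X | Le β A hr j p.2 (β.V l) p.1 (β.V k)} := by
      ext p
      simp only [mem_ofPred_eq, mem_inter_iff, mem_iInter, mem_iUnion, exists_prop]
      rw [Le_iff]
    rw [h1]
    refine (meas_B0 β hm hA hV hW).inter ?_
    refine MeasurableSet.biInter (to_countable _) fun j hj => ?_
    refine MeasurableSet.biInter (to_countable _) fun k _ => ?_
    refine MeasurableSet.biUnion (to_countable _) fun l _ => ?_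
    exact measurable_swap (ih j hj (β.V l) (β.V k) (β.isOpen l) (β.isOpen k))

end LeMeas

end Pool.Agent.V8H42.TV
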