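import Mathlib
import Pool.Agent.V8H42.TV.Base

set_option autoImplicit false
set_option linter.unusedSectionVars false

/-!
# Back and forth along a descending sequence
-/

namespace Pool.Agent.V8H42.TV

open Set Filter Topology MeasureTheory

theorem nested_point {G : Type} [MetricSpace G] [CompleteSpace G] (V : ℕ → Set G)
    (hne : ∀ n, (V n).Nonempty) (hcl : ∀ n, closure (V (n + 1)) ⊆ V n)
    (hb : ∀ n, ∃ c, V (n + 1) ⊆ Metric.ball c ((1 / 2) ^ n)) : ∃ g, ∀ n, g ∈ V n := by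
  have hanti : Antitone V := antitone_nat_of_succ_le fun n => subset_closure.trans (hcl n)
  choose a ha using hne
  choose c hc using hb
  have hcau : CauchySeq a := by
    rw [Metric.cauchySeq_iff']
    intro ε hε
    obtain ⟨n, hn⟩ := exists_pow_lt_of_lt_one (half_pos hε) (by norm_num : (1 / 2 : ℝ) < 1)
    refine ⟨n + 1, fun m hm => ?_⟩
    have h1 : a m ∈ Metric.ball (c n) ((1 / 2) ^ n) := hc n (hanti hm (ha m))
    have h2 : a (n + 1) ∈ Metric.ball (c n) ((1 / 2) ^ n) := hc n (ha (n + 1))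
    rw [Metric.mem_ball] at h1 h2
    have h3 := dist_triangle_right (a m) (a (n + 1)) (c n)
    linarith
  obtain ⟨g, hg⟩ := cauchySeq_tendsto_of_complete hcau
  refine ⟨g, fun n => hcl n ?_⟩
  refine mem_closure_of_tendsto hg ?_
  filter_upwards [eventually_ge_atTop (n + 1)] with m hm
  exact hanti hm (ha m)

section

variable {G X : Type} [TopologicalSpace G] [Group G] [IsTopologicalGroup G] [PolishSpace G]
  [MeasurableSpace G] [BorelSpace G] [MeasurableSpace X] [MulAction G X]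

theorem backforth (β : Base G) (hm : Measurable fun p : G × X => p.1 • p.2) {A : ℕ → Set X}
    (hA : ∀ n, MeasurableSet (A n)) (hsep : ∀ x y : X, (∀ n, x ∈ A n ↔ y ∈ A n) → x = y)
    (p : Bool → X) {r : ℕ → ℕ → Prop} (R : ℕ → Bool → ℕ → ℕ → Prop)
    (hR : ∀ i b k l, R i b k l → B0 A (p b) (β.V k) (p !b) (β.V l) ∧
      ∀ j, r j i → ∀ k', β.V k' ⊆ β.V k → ∃ l', β.V l' ⊆ β.V l ∧ R j (!b) l' k')
    (f : ℕ → ℕ) (hf : ∀ n, r (f (n + 1)) (f n)) {b : Bool} {k l : ℕ} (h0 : R (f 0) b k l) :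
    ∃ g ∈ β.V k, ∃ h ∈ β.V l, g • p b = h • p !b := by
  let _ := TopologicalSpace.upgradeIsCompletelyMetrizable G
  have h1 : ∀ (c : Bool) (n : ℕ), ∃ O : Set G, IsOpen O ∧
      ∀ᶠ g in residual G, (g • p c ∈ A n ↔ g ∈ O) := by
    intro c n
    obtain ⟨O, hO, hO2⟩ := (meas_orb hm (p c) (hA n)).residualEq_isOpen
    exact ⟨O, hO, hO2.mem_iff⟩
  choose O hO1 hO2 using h1
  have h2 : ∀ c : Bool, ∃ D : ℕ → Set G, (∀ j, IsOpen (D j) ∧ Dense (D j)) ∧
      ∀ g, (∀ j, g ∈ D j) → ∀ n, (g • p c ∈ A n ↔ g ∈ O c n) := by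
    intro c
    have h3 : ∀ᶠ g in residual G, ∀ n, (g • p c ∈ A n ↔ g ∈ O c n) :=
      eventually_countable_forall.2 (hO2 c)
    obtain ⟨S, hSo, hSd, hSc, hS⟩ := mem_residual_iff.1 h3
    obtain ⟨W, hW⟩ := (hSc.insert (univ : Set G)).exists_eq_range ⟨univ, mem_insert _ _⟩
    have hWS : ∀ n, W n = univ ∨ W n ∈ S := by
      intro n
      have : W n ∈ insert univ S := by rw [hW]; exact ⟨n, rfl⟩
      exact this
    refine ⟨W, fun n => ?_, fun g hg => ?_⟩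
    · rcases hWS n with h | h
      · rw [h]; exact ⟨isOpen_univ, dense_univ⟩
      · exact ⟨hSo _ h, hSd _ h⟩
    · refine hS (a := g) fun t ht => ?_
      have : t ∈ range W := by rw [← hW]; exact mem_insert_of_mem _ ht
      obtain ⟨n, rfl⟩ := this
      exact hg n
  choose D hD1 hD2 using h2
  let Good : ℕ → Bool → Set G → Set G → Prop := fun n c V V' => closure V' ⊆ V ∧
    (∃ a, V' ⊆ Metric.ball a ((1 / 2) ^ n)) ∧ V' ⊆ D c n ∧
      (V' ⊆ O c n ∨ Disjoint V' (O c n))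
  have Gmono : ∀ n c V V' W, Good n c V V' → W ⊆ V' → Good n c V W := by
    rintro n c V V' W ⟨h1, ⟨a, h2⟩, h3, h4⟩ hW
    exact ⟨(closure_mono hW).trans h1, ⟨a, hW.trans h2⟩, hW.trans h3,
      h4.imp hW.trans fun h => h.mono_left hW⟩
  have Gmono' : ∀ n c V V' W, Good n c V V' → V ⊆ W → Good n c W V' := by
    rintro n c V V' W ⟨h1, ⟨a, h2⟩, h3, h4⟩ hW
    exact ⟨h1.trans hW, ⟨a, h2⟩, h3, h4⟩
  have Gex : ∀ n c k, ∃ k', Good n c (β.V k) (β.V k') := by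
    intro n c k
    have hT : ((β.V k) ∩ D c n).Nonempty :=
      (hD1 c n).2.inter_open_nonempty _ (β.isOpen k) (β.ne k)
    have hTo : IsOpen ((β.V k) ∩ D c n) := (β.isOpen k).inter (hD1 c n).1
    have h3 : ∃ T' : Set G, IsOpen T' ∧ T'.Nonempty ∧ T' ⊆ (β.V k) ∩ D c n ∧
        (T' ⊆ O c n ∨ Disjoint T' (O c n)) := by
      by_cases h : ((β.V k) ∩ D c n ∩ O c n).Nonempty
      · exact ⟨_, hTo.inter (hO1 c n), h, inter_subset_left, Or.inl inter_subset_right⟩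
      · refine ⟨_, hTo, hT, Subset.rfl, Or.inr ?_⟩
        rw [disjoint_iff_inter_eq_empty]
        exact not_nonempty_iff_eq_empty.1 h
    obtain ⟨T', hT'o, ⟨a, ha⟩, hT'1, hT'2⟩ := h3
    obtain ⟨ε, hε, hεT⟩ := Metric.isOpen_iff.1 hT'o a ha
    have hpos : (0 : ℝ) < min (ε / 2) ((1 / 2) ^ n) := lt_min (half_pos hε) (by positivity)
    obtain ⟨k', hk1, hk2⟩ := β.base (Metric.ball a (min (ε / 2) ((1 / 2) ^ n)))
      Metric.isOpen_ball a (Metric.mem_ball_self hpos)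
    have hcl : closure (β.V k') ⊆ T' := by
      refine (closure_mono hk2).trans ((Metric.closure_ball_subset_closedBall).trans ?_)
      refine Subset.trans ?_ hεT
      intro x hx
      rw [Metric.mem_closedBall] at hx
      rw [Metric.mem_ball]
      have := min_le_left (ε / 2) ((1 / 2 : ℝ) ^ n)
      linarith
    have hsub : β.V k' ⊆ T' := subset_closure.trans hcl
    refine ⟨k', fun x hx => (hT'1 (hcl hx)).1, ⟨a, hk2.trans (Metric.ball_subset_ball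
      (min_le_right _ _))⟩, fun x hx => (hT'1 (hsub hx)).2, ?_⟩
    exact hT'2.imp hsub.trans fun h => h.mono_left hsub
  have hstep : ∀ n (q : {q : ℕ × ℕ // R (f (2 * n)) b q.1 q.2}),
      ∃ q' : {q : ℕ × ℕ // R (f (2 * (n + 1))) b q.1 q.2},
        Good n b (β.V q.1.1) (β.V q'.1.1) ∧ Good n (!b) (β.V q.1.2) (β.V q'.1.2) := by
    rintro n ⟨⟨K, L⟩, hq⟩
    obtain ⟨k', hk'⟩ := Gex n b K
    obtain ⟨l', hl1, hl2⟩ := (hR _ _ _ _ hq).2 (f (2 * n + 1)) (hf _) k'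
      (subset_closure.trans hk'.1)
    obtain ⟨l'', hl''⟩ := Gex n (!b) l'
    obtain ⟨k'', hk1, hk2⟩ := (hR _ _ _ _ hl2).2 (f (2 * n + 1 + 1)) (hf _) l''
      (subset_closure.trans hl''.1)
    rw [Bool.not_not] at hk2
    exact ⟨⟨(k'', l''), hk2⟩, Gmono _ _ _ _ _ hk' hk1, Gmono' _ _ _ _ _ hl'' hl1⟩
  choose F hF1 hF2 using hstep
  let T : ∀ n, {q : ℕ × ℕ // R (f (2 * n)) b q.1 q.2} := fun n =>
    Nat.rec ⟨(k, l), h0⟩ (fun n q => F n q) n
  have hT1 : ∀ n, Good n b (β.V (T n).1.1) (β.V (T (n + 1)).1.1) := fun n => hF1 n (T n)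
  have hT2 : ∀ n, Good n (!b) (β.V (T n).1.2) (β.V (T (n + 1)).1.2) := fun n => hF2 n (T n)
  obtain ⟨g, hg⟩ := nested_point (fun n => β.V (T n).1.1) (fun n => β.ne _)
    (fun n => (hT1 n).1) (fun n => (hT1 n).2.1)
  obtain ⟨h, hh⟩ := nested_point (fun n => β.V (T n).1.2) (fun n => β.ne _)
    (fun n => (hT2 n).1) (fun n => (hT2 n).2.1)
  refine ⟨g, hg 0, h, hh 0, hsep _ _ fun n => ?_⟩
  have hgA := hD2 b g (fun j => (hT1 j).2.2.1 (hg (j + 1))) n
  have hhA := hD2 (!b) h (fun j => (hT2 j).2.2.1 (hh (j + 1))) n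
  rw [hgA, hhA]
  have hB0 := (hR _ _ _ _ (T (n + 1)).2).1 n
  -- open sets contained in or disjoint from the approximations
  have key1 : ∀ (c : Bool) (k : ℕ), β.V k ⊆ O c n → NM (β.V k) (p c) (A n) := by
    intro c k hk hme
    refine not_isMeagre_of_isOpen (β.isOpen k) (β.ne k) ?_
    show (β.V k)ᶜ ∈ residual G
    have h3 : ({g : G | g • p c ∈ A n} ∩ β.V k)ᶜ ∈ residual G := hme
    filter_upwards [h3, hO2 c n] with u hu1 hu2 hu3
    exact hu1 ⟨hu2.2 (hk hu3), hu3⟩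
  have key2 : ∀ (c : Bool) (k : ℕ), Disjoint (β.V k) (O c n) → NM (β.V k) (p c) (A n)ᶜ := by
    intro c k hk hme
    refine not_isMeagre_of_isOpen (β.isOpen k) (β.ne k) ?_
    show (β.V k)ᶜ ∈ residual G
    have h3 : ({g : G | g • p c ∈ (A n)ᶜ} ∩ β.V k)ᶜ ∈ residual G := hme
    filter_upwards [h3, hO2 c n] with u hu1 hu2 hu3
    exact hu1 ⟨fun hu4 => disjoint_left.1 hk hu3 (hu2.1 hu4), hu3⟩
  have key3 : ∀ (c : Bool) (k : ℕ), β.V k ⊆ O c n → ¬ NM (β.V k) (p c) (A n)ᶜ := by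
    intro c k hk hn
    apply hn
    show ({g : G | g • p c ∈ (A n)ᶜ} ∩ β.V k)ᶜ ∈ residual G
    filter_upwards [hO2 c n] with u hu2 hu3
    exact hu3.1 (hu2.2 (hk hu3.2))
  have key4 : ∀ (c : Bool) (k : ℕ), Disjoint (β.V k) (O c n) → ¬ NM (β.V k) (p c) (A n) := by
    intro c k hk hn
    apply hn
    show ({g : G | g • p c ∈ A n} ∩ β.V k)ᶜ ∈ residual G
    filter_upwards [hO2 c n] with u hu2 hu3
    exact disjoint_left.1 hk hu3.2 (hu2.1 hu3.1)
  rcases (hT1 n).2.2.2 with h3 | h3 <;> rcases (hT2 n).2.2.2 with h4 | h4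
  · exact ⟨fun _ => h4 (hh (n + 1)), fun _ => h3 (hg (n + 1))⟩
  · exact absurd (hB0.1 (key1 _ _ h3)) (key4 _ _ h4)
  · exact absurd (hB0.2 (key2 _ _ h3)) (key3 _ _ h4)
  · exact ⟨fun h5 => absurd h5 (disjoint_left.1 h3 (hg (n + 1))),
      fun h5 => absurd h5 (disjoint_left.1 h4 (hh (n + 1)))⟩

end

end Pool.Agent.V8H42.TV
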