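import Mathlib
import Pool.Agent.V8H42.TV.Fusion

set_option autoImplicit false
set_option linter.unusedSectionVars false

/-!
# Stabilizers of Borel actions are closed, and orbits are Borel
-/

namespace Pool.Agent.V8H42.TV

open Set Filter Topology MeasureTheory

section Stab

variable {G X : Type} [TopologicalSpace G] [Group G] [IsTopologicalGroup G] [PolishSpace G]
  [MeasurableSpace G] [BorelSpace G] [MeasurableSpace X] [MulAction G X]

/-- a dense stabilizer is everything -/
theorem dense_stab (hm : Measurable fun p : G × X => p.1 • p.2) {A : ℕ → Set X}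
    (hA : ∀ n, MeasurableSet (A n)) (hsep : ∀ x y : X, (∀ n, x ∈ A n ↔ y ∈ A n) → x = y)
    {x : X} (hd : Dense {g : G | g • x = x}) (g : G) : g • x = x := by
  obtain ⟨β⟩ := exists_base G
  have h1 : ∀ n, (∀ᶠ g in residual G, g • x ∈ A n) ∨ ∀ᶠ g in residual G, g • x ∉ A n := by
    intro n
    by_cases hS : NM (univ : Set G) x (A n)
    · by_cases hS' : NM (univ : Set G) x (A n)ᶜ
      · exfalso
        obtain ⟨k, -, hk⟩ := NM.local β hm isOpen_univ (hA n) hS
        obtain ⟨l, -, hl⟩ := NM.local β hm isOpen_univ (hA n).compl hS'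
        rw [compl_compl] at hl
        obtain ⟨v, hv⟩ := β.ne k
        obtain ⟨w, hw⟩ := β.ne l
        have ho : IsOpen {h : G | v * h ∈ β.V l} := (β.isOpen l).preimage (continuous_const_mul v)
        obtain ⟨h, hh1, hh2⟩ := hd.inter_open_nonempty _ ho ⟨v⁻¹ * w, by
          show v * (v⁻¹ * w) ∈ β.V l
          rwa [mul_inv_cancel_left]⟩
        have hh2' : h • x = x := hh2
        -- the open set `V k * h ∩ V l`
        have ho2 : IsOpen (β.V l ∩ {u : G | u * h⁻¹ ∈ β.V k}) :=
          (β.isOpen l).inter ((β.isOpen k).preimage (continuous_mul_const _))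
        obtain ⟨j, -, hj⟩ := β.base _ ho2 (v * h) ⟨hh1, by
          show v * h * h⁻¹ ∈ β.V k
          rwa [mul_inv_cancel_right]⟩
        have h3 : ¬ NM (β.V j) x (A n)ᶜ := by
          intro h4
          have h5 : NM (β.V j) (h⁻¹ • x) (A n)ᶜ := by
            have : h⁻¹ • x = x := by
              conv_lhs => rw [← hh2', inv_smul_smul]
            rwa [this]
          exact hk (h5.translate fun u hu => (hj hu).2)
        have h4 : ¬ NM (β.V j) x (A n) := fun h5 => hl (h5.mono (fun u hu => (hj hu).1) Subset.rfl)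
        exact h4 (NM.of_compl β h3)
      · left
        have h2 : IsMeagre ({g : G | g • x ∈ (A n)ᶜ} ∩ univ) := by
          unfold NM at hS'
          push Not at hS'
          exact hS'
        have h3 : ({g : G | g • x ∈ (A n)ᶜ} ∩ univ)ᶜ ∈ residual G := h2
        filter_upwards [h3] with u hu
        by_contra hn
        exact hu ⟨hn, mem_univ _⟩
    · right
      have h2 : IsMeagre ({g : G | g • x ∈ A n} ∩ univ) := by
        unfold NM at hS
        push Not at hS
        exact hS
      have h3 : ({g : G | g • x ∈ A n} ∩ univ)ᶜ ∈ residual G := h2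
      filter_upwards [h3] with u hu hn
      exact hu ⟨hn, mem_univ _⟩
  have h2 : ∀ᶠ g in residual G, ∀ n, (g • x ∈ A n ↔ ∀ᶠ g in residual G, g • x ∈ A n) := by
    rw [eventually_countable_forall]
    intro n
    rcases h1 n with h | h
    · filter_upwards [h] with u hu
      exact ⟨fun _ => h, fun _ => hu⟩
    · filter_upwards [h] with u hu
      refine ⟨fun h' => absurd h' hu, fun h' => ?_⟩
      obtain ⟨w, hw1, hw2⟩ := (dense_of_mem_residual (h.and h')).nonempty
      exact absurd hw2 hw1
  obtain ⟨g₀, hg₀⟩ := (dense_of_mem_residual h2).nonempty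
  have hg₀' : ∀ n, (g₀ • x ∈ A n ↔ ∀ᶠ g in residual G, g • x ∈ A n) := hg₀
  have h3 : ∀ᶠ g in residual G, g • x = g₀ • x := by
    filter_upwards [h2] with u hu
    exact hsep _ _ fun n => (hu n).trans (hg₀' n).symm
  -- two comeager cosets meet
  have h4 : ∀ᶠ u in residual G, (u * g) • x = g₀ • x :=
    (tendsto_residual_of_isOpenMap (continuous_mul_const g) (isOpenMap_mul_right g)).eventually h3
  obtain ⟨u, hu1, hu2⟩ := (dense_of_mem_residual (h3.and h4)).nonempty
  have hu1' : u • x = g₀ • x := hu1
  have hu2' : (u * g) • x = g₀ • x := hu2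
  rw [mul_smul, ← hu1'] at hu2'
  have h5 := congrArg (fun z => u⁻¹ • z) hu2'
  simpa only [inv_smul_smul] using h5

/-- stabilizers are closed -/
theorem closed_stab (hm : Measurable fun p : G × X => p.1 • p.2) {A : ℕ → Set X}
    (hA : ∀ n, MeasurableSet (A n)) (hsep : ∀ x y : X, (∀ n, x ∈ A n ↔ y ∈ A n) → x = y)
    (x : X) : IsClosed {g : G | g • x = x} := by
  let K : Subgroup G := (MulAction.stabilizer G x).topologicalClosure
  have hK : IsClosed (K : Set G) := Subgroup.isClosed_topologicalClosure _
  have _ : PolishSpace K := hK.polishSpace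
  have hm' : Measurable fun p : K × X => p.1 • p.2 :=
    hm.comp ((measurable_subtype_coe.comp measurable_fst).prodMk measurable_snd)
  have hd : Dense {g : K | g • x = x} := by
    intro g
    rw [mem_closure_iff]
    intro O hO hgO
    obtain ⟨O', hO', rfl⟩ := isOpen_induced_iff.1 hO
    have h1 : (g : G) ∈ closure ((MulAction.stabilizer G x : Subgroup G) : Set G) := g.2
    obtain ⟨h, hhO, hh⟩ := mem_closure_iff.1 h1 O' hO' hgO
    exact ⟨⟨h, Subgroup.le_topologicalClosure _ hh⟩, hhO, hh⟩
  have h1 := dense_stab hm' hA hsep hd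
  have h2 : {g : G | g • x = x} = (K : Set G) := by
    apply Subset.antisymm
    · intro g hg
      exact Subgroup.le_topologicalClosure _ (show g ∈ MulAction.stabilizer G x from hg)
    · intro g hg
      exact h1 ⟨g, hg⟩
  rw [h2]
  exact hK

end Stab

section Transversal

variable {G : Type} [TopologicalSpace G] [Group G] [IsTopologicalGroup G] [PolishSpace G]
  [MeasurableSpace G] [BorelSpace G]

/-- A closed subgroup has a Borel set of representatives of the left cosets. -/
theorem exists_transversal (H : Subgroup G) (hH : IsClosed (H : Set G)) :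
    ∃ T : Set G, MeasurableSet T ∧ (∀ g, ∃ t ∈ T, g⁻¹ * t ∈ H) ∧
      ∀ t ∈ T, ∀ t' ∈ T, t⁻¹ * t' ∈ H → t = t' := by
  classical
  let _ := TopologicalSpace.upgradeIsCompletelyMetrizable G
  obtain ⟨β⟩ := exists_base G
  let M : ℕ → G → Prop := fun k g => ∃ u ∈ β.V k, g⁻¹ * u ∈ H
  have hMo : ∀ k, IsOpen {g | M k g} := by
    intro k
    have : {g | M k g} = ⋃ h ∈ H, {g | g * h ∈ β.V k} := by
      ext g
      simp only [mem_ofPred_eq, mem_iUnion, exists_prop, M]
      constructor
      · rintro ⟨u, hu, h⟩
        exact ⟨_, h, by rwa [mul_inv_cancel_left]⟩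
      · rintro ⟨h, hh, hu⟩
        exact ⟨g * h, hu, by rwa [inv_mul_cancel_left]⟩
    rw [this]
    exact isOpen_biUnion fun h _ => (β.isOpen k).preimage (continuous_mul_const h)
  have hMc : ∀ k g g', g⁻¹ * g' ∈ H → (M k g ↔ M k g') := by
    intro k g g' h
    constructor
    · rintro ⟨u, hu, hu'⟩
      refine ⟨u, hu, ?_⟩
      have := H.mul_mem (H.inv_mem h) hu'
      have e : (g⁻¹ * g')⁻¹ * (g⁻¹ * u) = g'⁻¹ * u := by group
      rwa [e] at this
    · rintro ⟨u, hu, hu'⟩
      refine ⟨u, hu, ?_⟩
      have := H.mul_mem h hu'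
      have e : (g⁻¹ * g') * (g'⁻¹ * u) = g⁻¹ * u := by group
      rwa [e] at this
  -- refining
  let P : ℕ → Option ℕ → ℕ → Prop := fun n o k =>
    (∀ j, o = some j → closure (β.V k) ⊆ β.V j) ∧ ∃ c, β.V k ⊆ Metric.ball c ((1 / 2) ^ n)
  have hex : ∀ n (o : Option ℕ) g, (∀ j, o = some j → M j g) → ∃ k, P n o k ∧ M k g := by
    intro n o g ho
    have h1 : ∃ (u : G) (O : Set G), IsOpen O ∧ u ∈ O ∧ g⁻¹ * u ∈ H ∧
        ∀ j, o = some j → O ⊆ β.V j := by
      rcases o with _ | j
      · exact ⟨g, univ, isOpen_univ, mem_univ _, by rw [inv_mul_cancel]; exact H.one_mem,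
          fun j hj => by cases hj⟩
      · obtain ⟨u, hu, hgu⟩ := ho j rfl
        exact ⟨u, β.V j, β.isOpen j, hu, hgu, fun i hi => by cases hi; exact Subset.rfl⟩
    obtain ⟨u, O, hO, huO, hgu, hOj⟩ := h1
    obtain ⟨ε, hε, hεO⟩ := Metric.isOpen_iff.1 hO u huO
    have hpos : (0 : ℝ) < min (ε / 2) ((1 / 2) ^ n) := lt_min (half_pos hε) (by positivity)
    obtain ⟨k, hk1, hk2⟩ := β.base (Metric.ball u (min (ε / 2) ((1 / 2) ^ n)))
      Metric.isOpen_ball u (Metric.mem_ball_self hpos)
    refine ⟨k, ⟨fun j hj => ?_, ⟨u, hk2.trans (Metric.ball_subset_ball (min_le_right _ _))⟩⟩,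
      ⟨u, hk1, hgu⟩⟩
    refine (closure_mono hk2).trans ((Metric.closure_ball_subset_closedBall).trans ?_)
    refine Subset.trans ?_ (hεO.trans (hOj j hj))
    intro x hx
    rw [Metric.mem_closedBall] at hx
    rw [Metric.mem_ball]
    have := min_le_left (ε / 2) ((1 / 2 : ℝ) ^ n)
    linarith
  -- the sequence of indices
  let next : ℕ → Option ℕ → G → ℕ := fun n o g =>
    if h : ∃ k, P n o k ∧ M k g then Nat.find h else 0
  let kk : ℕ → G → ℕ := fun n => Nat.rec (fun g => next 0 none g)
    (fun n f g => next (n + 1) (some (f g)) g) n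
  have kk0 : ∀ g, kk 0 g = next 0 none g := fun g => rfl
  have kkS : ∀ n g, kk (n + 1) g = next (n + 1) (some (kk n g)) g := fun n g => rfl
  have hnext : ∀ n o g, (∀ j, o = some j → M j g) → P n o (next n o g) ∧ M (next n o g) g := by
    intro n o g ho
    have h := hex n o g ho
    have e : next n o g = Nat.find h := by
      show (if h : ∃ k, P n o k ∧ M k g then Nat.find h else 0) = _
      rw [dif_pos h]
    rw [e]
    exact Nat.find_spec h
  have hkM : ∀ n g, M (kk n g) g := by
    intro n
    induction n with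
    | zero =>
      intro g
      exact (hnext 0 none g (fun j hj => by cases hj)).2
    | succ n ih =>
      intro g
      exact (hnext (n + 1) (some (kk n g)) g (fun j hj => by cases hj; exact ih g)).2
  have hkP : ∀ n g, P (n + 1) (some (kk n g)) (kk (n + 1) g) := fun n g =>
    (hnext (n + 1) (some (kk n g)) g (fun j hj => by cases hj; exact hkM n g)).1
  have hkc : ∀ n g g', g⁻¹ * g' ∈ H → kk n g = kk n g' := by
    have hn : ∀ n o g g', g⁻¹ * g' ∈ H → next n o g = next n o g' := by
      intro n o g g' h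
      have e : ∀ k, (P n o k ∧ M k g) ↔ (P n o k ∧ M k g') := fun k =>
        and_congr_right fun _ => hMc k g g' h
      show (if h : ∃ k, P n o k ∧ M k g then Nat.find h else 0) =
        if h : ∃ k, P n o k ∧ M k g' then Nat.find h else 0
      by_cases h1 : ∃ k, P n o k ∧ M k g
      · have h2 : ∃ k, P n o k ∧ M k g' := by
          obtain ⟨k, hk⟩ := h1
          exact ⟨k, (e k).1 hk⟩
        rw [dif_pos h1, dif_pos h2]
        exact Nat.find_congr' (fun {k} => e k)
      · have h2 : ¬ ∃ k, P n o k ∧ M k g' := by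
          rintro ⟨k, hk⟩
          exact h1 ⟨k, (e k).2 hk⟩
        rw [dif_neg h1, dif_neg h2]
    intro n
    induction n with
    | zero => intro g g' h; exact hn 0 none g g' h
    | succ n ih =>
      intro g g' h
      rw [kkS, kkS, ih g g' h]
      exact hn _ _ g g' h
  have hnm : ∀ n o, Measurable (next n o) := by
    intro n o
    refine measurable_to_countable' fun k => ?_
    have h1 : ∀ k, MeasurableSet {g | P n o k ∧ M k g} := fun k =>
      (MeasurableSet.const _).inter (hMo k).measurableSet
    have h2 : (next n o) ⁻¹' {k} = ({g | P n o k ∧ M k g} ∩ ⋂ j ∈ {j | j < k},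
        {g | P n o j ∧ M j g}ᶜ) ∪ (if k = 0 then ⋂ j, {g | P n o j ∧ M j g}ᶜ else ∅) := by
      ext g
      simp only [mem_preimage, mem_singleton_iff, mem_union, mem_inter_iff, mem_iInter,
        mem_ofPred_eq, mem_compl_iff]
      by_cases h : ∃ k, P n o k ∧ M k g
      · have e : next n o g = Nat.find h := by
          show (if h : ∃ k, P n o k ∧ M k g then Nat.find h else 0) = _
          rw [dif_pos h]
        rw [e, Nat.find_eq_iff]
        constructor
        · rintro ⟨h3, h4⟩
          exact Or.inl ⟨h3, fun j hj => h4 j hj⟩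
        · rintro (⟨h3, h4⟩ | h3)
          · exact ⟨h3, fun j hj => h4 j hj⟩
          · split_ifs at h3 with h5
            · obtain ⟨k', hk'⟩ := h
              exact absurd hk' (mem_iInter.1 h3 k')
            · exact h3.elim
      · have e : next n o g = 0 := by
          show (if h : ∃ k, P n o k ∧ M k g then Nat.find h else 0) = _
          rw [dif_neg h]
        rw [e]
        constructor
        · rintro rfl
          right
          rw [if_pos rfl]
          exact mem_iInter.2 fun j hj => h ⟨j, hj⟩
        · rintro (⟨h3, -⟩ | h3)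
          · exact absurd ⟨k, h3⟩ h
          · split_ifs at h3 with h5
            · exact h5.symm
            · exact h3.elim
    rw [h2]
    refine ((h1 k).inter (MeasurableSet.biInter (to_countable _) fun j _ => (h1 j).compl)).union ?_
    split_ifs
    · exact MeasurableSet.iInter fun j => (h1 j).compl
    · exact MeasurableSet.empty
  have hkm : ∀ n, Measurable (kk n) := by
    intro n
    induction n with
    | zero => exact hnm 0 none
    | succ n ih =>
      refine measurable_to_countable' fun k => ?_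
      have h2 : (kk (n + 1)) ⁻¹' {k} = ⋃ j, ((kk n) ⁻¹' {j} ∩ (next (n + 1) (some j)) ⁻¹' {k}) := by
        ext g
        simp only [mem_preimage, mem_singleton_iff, mem_iUnion, mem_inter_iff]
        constructor
        · intro h
          exact ⟨kk n g, rfl, h⟩
        · rintro ⟨j, hj, h⟩
          rw [kkS, hj]
          exact h
      rw [h2]
      exact MeasurableSet.iUnion fun j => (ih (measurableSet_singleton j)).inter
        (hnm _ _ (measurableSet_singleton k))
  refine ⟨{g | ∀ n, g ∈ β.V (kk n g)}, ?_, ?_, ?_⟩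
  · rw [ofPred_forall]
    refine MeasurableSet.iInter fun n => ?_
    have : {g | g ∈ β.V (kk n g)} = ⋃ j, ((kk n) ⁻¹' {j} ∩ β.V j) := by
      ext g
      simp only [mem_ofPred_eq, mem_iUnion, mem_inter_iff, mem_preimage, mem_singleton_iff]
      constructor
      · intro h
        exact ⟨_, rfl, h⟩
      · rintro ⟨j, hj, h⟩
        rw [hj]
        exact h
    rw [this]
    exact MeasurableSet.iUnion fun j => (hkm n (measurableSet_singleton j)).inter
      (β.isOpen j).measurableSet
  · intro g
    obtain ⟨t, ht⟩ := nested_point (fun n => β.V (kk n g)) (fun n => β.ne _)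
      (fun n => (hkP n g).1 _ rfl) (fun n => by
        obtain ⟨c, hc⟩ := (hkP n g).2
        refine ⟨c, hc.trans (Metric.ball_subset_ball ?_)⟩
        exact pow_le_pow_of_le_one (by norm_num) (by norm_num) (Nat.le_succ n))
    have hgt : g⁻¹ * t ∈ H := by
      have h1 : ∀ n, ∃ u, g⁻¹ * u ∈ H ∧ dist u t < 2 * (1 / 2) ^ n := by
        intro n
        obtain ⟨u, hu, hgu⟩ := hkM (n + 1) g
        obtain ⟨c, hc⟩ := (hkP n g).2
        have h2 := hc hu
        have h3 := hc (ht (n + 1))
        rw [Metric.mem_ball] at h2 h3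
        refine ⟨u, hgu, ?_⟩
        have h4 := dist_triangle_right u t c
        have h5 : (1 / 2 : ℝ) ^ (n + 1) ≤ (1 / 2) ^ n :=
          pow_le_pow_of_le_one (by norm_num) (by norm_num) (Nat.le_succ n)
        linarith
      choose u hu1 hu2 using h1
      have hut : Tendsto u atTop (𝓝 t) := by
        rw [tendsto_iff_dist_tendsto_zero]
        have h3 : Tendsto (fun n : ℕ => (2 : ℝ) * (1 / 2) ^ n) atTop (𝓝 0) := by
          have := (tendsto_pow_atTop_nhds_zero_of_lt_one (r := (1 / 2 : ℝ)) (by norm_num)
            (by norm_num)).const_mul 2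
          simpa using this
        exact squeeze_zero (fun n => dist_nonneg) (fun n => (hu2 n).le) h3
      have h4 : Tendsto (fun n => g⁻¹ * u n) atTop (𝓝 (g⁻¹ * t)) := hut.const_mul _
      exact hH.mem_of_tendsto h4 (Eventually.of_forall hu1)
    refine ⟨t, fun n => ?_, hgt⟩
    rw [← hkc n g t hgt]
    exact ht n
  · intro t ht t' ht' h
    by_contra hne
    have hpos : 0 < dist t t' := dist_pos.2 hne
    obtain ⟨n, hn⟩ := exists_pow_lt_of_lt_one (half_pos hpos) (by norm_num : (1 / 2 : ℝ) < 1)
    obtain ⟨c, hc⟩ := (hkP n t).2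
    have h1 := hc (ht (n + 1))
    have h2 : t' ∈ Metric.ball c ((1 / 2) ^ (n + 1)) := by
      have := ht' (n + 1)
      rw [← hkc (n + 1) t t' h] at this
      exact hc this
    rw [Metric.mem_ball] at h1 h2
    have h4 := dist_triangle_right t t' c
    have h5 : (1 / 2 : ℝ) ^ (n + 1) ≤ (1 / 2) ^ n :=
      pow_le_pow_of_le_one (by norm_num) (by norm_num) (Nat.le_succ n)
    linarith

end Transversal

section Orbit

variable {G X : Type} [TopologicalSpace G] [Group G] [IsTopologicalGroup G] [PolishSpace G]
  [MeasurableSpace G] [BorelSpace G] [MeasurableSpace X] [StandardBorelSpace X] [MulAction G X]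

/-- orbits are Borel -/
theorem meas_orbit (hm : Measurable fun p : G × X => p.1 • p.2) {A : ℕ → Set X}
    (hA : ∀ n, MeasurableSet (A n)) (hsep : ∀ x y : X, (∀ n, x ∈ A n ↔ y ∈ A n) → x = y)
    (x : X) : MeasurableSet {y : X | ∃ g : G, g • x = y} := by
  obtain ⟨T, hT, hT1, hT2⟩ := exists_transversal (MulAction.stabilizer G x)
    (closed_stab hm hA hsep x)
  have h1 : {y : X | ∃ g : G, g • x = y} = (fun g : G => g • x) '' T := by
    ext y
    constructor
    · rintro ⟨g, rfl⟩
      obtain ⟨t, ht, hgt⟩ := hT1 g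
      refine ⟨t, ht, ?_⟩
      have h2 : (g⁻¹ * t) • x = x := hgt
      show t • x = g • x
      conv_rhs => rw [← h2, ← mul_smul, mul_inv_cancel_left]
    · rintro ⟨t, -, rfl⟩
      exact ⟨t, rfl⟩
  rw [h1]
  refine hT.image_of_measurable_injOn (meas_orb hm x) ?_
  intro t ht t' ht' h
  refine hT2 t ht t' ht' ?_
  have h2 : t • x = t' • x := h
  show (t⁻¹ * t') • x = x
  rw [mul_smul, ← h2, inv_smul_smul]

end Orbit

end Pool.Agent.V8H42.TV
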