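import Mathlib
import Pool.Agent.H579R3.SB
import Pool.Agent.H566W.Ana
import Pool.Agent.V8H42.TV.Base

set_option autoImplicit false
set_option linter.unusedSectionVars false

/-!
# An approximate form of Silver's theorem, and countable covers by sets of similar points
-/

namespace Pool.Agent.V8H42.TV

open Set Filter Topology MeasureTheory
open Pool.Agent.H579R3.SV (fl flip_of_ne fusion)

/-- Silver's theorem for pairs of relations `L`, `L'` such that the composition of `L` with itself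
is contained in `L'`. -/
theorem approx {X : Type*} [MetricSpace X] [CompleteSpace X] [SecondCountableTopology X]
    [MeasurableSpace X] [BorelSpace X] {L L' : X → X → Prop}
    (hLs : ∀ x y, L x y → L y x) (hLL : ∀ x y z, L x y → L y z → L' x z)
    (hm : MeasurableSet {q : X × X | L q.1 q.2}) (hm' : MeasurableSet {q : X × X | L' q.1 q.2})
    {T : Set X} (hTu : ¬ T.Countable) (hT : ∀ a ∈ T, ∀ b ∈ T, a ≠ b → ¬ L' a b) :
    ∃ h : (ℕ → Bool) → X, Continuous h ∧ ∀ b b', b ≠ b' → ¬ L (h b) (h b') := by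
  have hTn : T.Nonempty := by
    by_contra h
    rw [not_nonempty_iff_eq_empty] at h
    exact hTu (h ▸ countable_empty)
  obtain ⟨a, ha⟩ := hTn
  have hG : AnalyticSet {q : X × X | L' q.1 q.2}ᶜ := hm'.compl.analyticSet
  have hGne : ({q : X × X | L' q.1 q.2}ᶜ).Nonempty := by
    have : (T \ {a}).Nonempty := by
      by_contra h
      rw [not_nonempty_iff_eq_empty, sdiff_eq_empty] at h
      exact hTu ((countable_singleton a).mono h)
    obtain ⟨b, hb, hb'⟩ := this
    exact ⟨(a, b), fun h => hT a ha b hb (fun e => hb' e.symm) h⟩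
  rw [analyticSet_iff_exists_polishSpace_range] at hG
  obtain ⟨Z, tZ, pZ, φ, hφ, hφr⟩ := hG
  let _ := TopologicalSpace.upgradeIsCompletelyMetrizable Z
  have hZne : Nonempty Z := by
    obtain ⟨q, hq⟩ := hGne
    rw [← hφr] at hq
    obtain ⟨z, -⟩ := hq
    exact ⟨z⟩
  let d : ℕ → ℕ → Bool := TopologicalSpace.denseSeq (ℕ → Bool)
  have hd : DenseRange d := TopologicalSpace.denseRange_denseSeq _
  let s : ℕ → ℕ → Bool := fun k => d (Nat.unpair k).1
  have hs : ∀ j m, s (Nat.pair j m) = d j := fun j m => by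
    show d (Nat.unpair (Nat.pair j m)).1 = d j
    rw [Nat.unpair_pair]
  obtain ⟨ψ, hψ, hedge⟩ := fusion (X := X) (Z := Z) hφ s hTu (fun a ha b hb hab => by
    have : (a, b) ∈ range φ := by
      rw [hφr]
      exact hT a ha b hb hab
    exact this)
  have hedge' : ∀ (k : ℕ) (x : ℕ → Bool), (∀ i < k, x i = s k i) → x k = false →
      ¬ L' (ψ x) (ψ (Pool.Agent.H579R3.SV.flip k x)) := by
    intro k x hx hxk
    obtain ⟨z, hz⟩ := hedge k x hx hxk
    have h1 : φ z ∈ {q : X × X | L' q.1 q.2}ᶜ := hφr ▸ mem_range_self z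
    rw [hz] at h1
    have h2 : Pool.Agent.H579R3.SV.flip k x = Function.update x k true := by
      unfold Pool.Agent.H579R3.SV.flip
      rw [hxk]
      rfl
    rw [h2]
    exact h1
  let E' : Set ((ℕ → Bool) × (ℕ → Bool)) := {q | L (ψ q.1) (ψ q.2)}
  have hE'm : MeasurableSet E' :=
    ((hψ.prodMap hψ).measurable : Measurable (Prod.map ψ ψ)) hm
  obtain ⟨u, hu, hEu⟩ := hE'm.residualEq_isOpen
  by_cases hne : u.Nonempty
  · exfalso
    obtain ⟨⟨x0, y0⟩, h0⟩ := hne
    obtain ⟨a, b, ha, hb, hxa, hyb, hab⟩ := isOpen_prod_iff.1 hu x0 y0 h0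
    obtain ⟨c, ⟨x1, m, rfl⟩, hxc, hca⟩ :=
      (PiNat.isTopologicalBasis_cylinders (fun _ : ℕ => Bool)).exists_subset_of_mem_open hxa ha
    obtain ⟨j, hj⟩ := hd.exists_mem_open (PiNat.isOpen_cylinder (fun _ : ℕ => Bool) x1 m)
      ⟨x0, hxc⟩
    let k := Nat.pair j m
    have hmk : m ≤ k := Nat.right_le_pair j m
    let O : Set ((ℕ → Bool) × (ℕ → Bool)) := PiNat.cylinder (s k) k ×ˢ b
    have hO : IsOpen O := (PiNat.isOpen_cylinder (fun _ : ℕ => Bool) (s k) k).prod hb
    have hOne : O.Nonempty := ⟨(s k, y0), PiNat.self_mem_cylinder _ _, hyb⟩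
    have hOu : O ⊆ u := by
      rintro ⟨x, z⟩ ⟨hx, hz⟩
      refine hab ⟨hca ?_, hz⟩
      intro i hi
      have h1 := hx i (lt_of_lt_of_le hi hmk)
      rw [show s k = d j from hs j m] at h1
      rw [h1]
      exact hj i hi
    let Θ := (fl k).prodCongr (Homeomorph.refl (ℕ → Bool))
    have hH : {q | q ∈ E' ↔ q ∈ u} ∈ residual ((ℕ → Bool) × (ℕ → Bool)) := hEu.mem_iff
    have hH2 : Θ ⁻¹' {q | q ∈ E' ↔ q ∈ u} ∈ residual ((ℕ → Bool) × (ℕ → Bool)) :=
      tendsto_residual_of_isOpenMap Θ.continuous Θ.isOpenMap hH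
    obtain ⟨q, hqO, hq1, hq2⟩ :=
      (dense_of_mem_residual (inter_mem hH hH2)).inter_open_nonempty O hO hOne
    have hqE : L (ψ q.1) (ψ q.2) := hq1.2 (hOu hqO)
    have hΘO : Θ q ∈ O := by
      refine ⟨fun i hi => ?_, hqO.2⟩
      show Pool.Agent.H579R3.SV.flip k q.1 i = s k i
      rw [flip_of_ne _ hi.ne]
      exact hqO.1 i hi
    have hqE2 : L (ψ (Pool.Agent.H579R3.SV.flip k q.1)) (ψ q.2) := hq2.2 (hOu hΘO)
    have hEE : L' (ψ q.1) (ψ (Pool.Agent.H579R3.SV.flip k q.1)) := hLL _ _ _ hqE (hLs _ _ hqE2)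
    have hEE2 : L' (ψ (Pool.Agent.H579R3.SV.flip k q.1)) (ψ q.1) := hLL _ _ _ hqE2 (hLs _ _ hqE)
    rcases hb' : q.1 k with _ | _
    · exact hedge' k q.1 hqO.1 hb' hEE
    · refine hedge' k (Pool.Agent.H579R3.SV.flip k q.1) (fun i hi => ?_) ?_ ?_
      · rw [flip_of_ne _ hi.ne]
        exact hqO.1 i hi
      · simp [Pool.Agent.H579R3.SV.flip, hb']
      · rw [Pool.Agent.H579R3.SV.flip_flip]
        exact hEE2
  · rw [not_nonempty_iff_eq_empty] at hne
    subst hne
    have hR : E'ᶜ ∈ residual ((ℕ → Bool) × (ℕ → Bool)) := by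
      filter_upwards [hEu.mem_iff] with q hq hq'
      exact hq.1 hq'
    rw [mem_residual_iff] at hR
    obtain ⟨S, hSo, hSd, hSc, hS⟩ := hR
    obtain ⟨W, hW⟩ := (hSc.insert (univ : Set ((ℕ → Bool) × (ℕ → Bool)))).exists_eq_range
      ⟨univ, mem_insert _ _⟩
    have hWm : ∀ n, W n ∈ insert univ S := fun n => hW ▸ mem_range_self n
    obtain ⟨h, hh1, hh2⟩ := Pool.Agent.H565R2.FO2.mycielski' (G := ℕ → Bool) W (fun n => by
      rcases hWm n with h | h
      · rw [h]; exact isOpen_univ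
      · exact hSo _ h) (fun n => by
      rcases hWm n with h | h
      · rw [h]; exact dense_univ
      · exact hSd _ h)
    refine ⟨fun x => ψ (h x), hψ.comp hh1, fun b b' hbb hc => ?_⟩
    have h3 : (h b, h b') ∈ ⋂₀ S := by
      intro t ht
      have : t ∈ range W := by
        rw [← hW]
        exact mem_insert_of_mem _ ht
      obtain ⟨n, rfl⟩ := this
      exact hh2 b b' hbb n
    exact hS h3 hc

/-- maximal discrete sets -/
theorem exists_net {X : Type*} (L : X → X → Prop) (hs : ∀ x y, L x y → L y x)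
    (hr : ∀ x, L x x) : ∃ T : Set X, (∀ a ∈ T, ∀ b ∈ T, a ≠ b → ¬ L a b) ∧
      ∀ x, ∃ t ∈ T, L x t := by
  obtain ⟨T, hT⟩ := zorn_subset {T : Set X | ∀ a ∈ T, ∀ b ∈ T, a ≠ b → ¬ L a b} (by
    intro c hc hchain
    refine ⟨⋃₀ c, ?_, fun s hs => subset_sUnion_of_mem hs⟩
    rintro a ⟨s, hs, has⟩ b ⟨t, ht, hbt⟩ hab
    rcases hchain.total hs ht with h | h
    · exact hc ht a (h has) b hbt hab
    · exact hc hs a has b (h hbt) hab)
  refine ⟨T, hT.prop, fun x => ?_⟩
  by_contra hcon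
  push Not at hcon
  have hx : x ∉ T := fun h => hcon x h (hr x)
  have h1 : insert x T ∈ {T : Set X | ∀ a ∈ T, ∀ b ∈ T, a ≠ b → ¬ L a b} := by
    rintro a (rfl | ha) b (rfl | hb) hab
    · exact absurd rfl hab
    · exact hcon b hb
    · exact fun h => hcon a ha (hs _ _ h)
    · exact hT.prop a ha b hb hab
  have h2 : insert x T ⊆ T := hT.le_of_ge h1 (subset_insert x T)
  exact hx (h2 (mem_insert _ _))

section Cover

variable {G X : Type} [TopologicalSpace G] [Group G] [IsTopologicalGroup G] [PolishSpace G]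
  [MeasurableSpace G] [BorelSpace G] [MeasurableSpace X] [StandardBorelSpace X] [MulAction G X]

/-- there is no perfect set of inequivalent points -/
def Thin (G X : Type) [Group G] [MeasurableSpace X] [MulAction G X] : Prop :=
  ¬ ∃ f : (ℕ → Bool) → X, Measurable f ∧ ∀ x y : ℕ → Bool, x ≠ y → ¬ ∃ g : G, g • f x = f y

/-- an uncountable set of group elements contains two elements which are near each other -/
theorem countable_of_far (ν : Nb G) (m : ℕ) {S : Type} (γ : S → G)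
    (h : ∀ a b, a ≠ b → γ a * (γ b)⁻¹ ∉ ν.U m) : Countable S := by
  let d : ℕ → G := TopologicalSpace.denseSeq G
  have hd : DenseRange d := TopologicalSpace.denseRange_denseSeq _
  have h1 : ∀ a : S, ∃ j, γ a * (d j)⁻¹ ∈ ν.U (m + 1) := by
    intro a
    obtain ⟨j, hj⟩ := hd.exists_mem_open
      (s := {x : G | γ a * x⁻¹ ∈ ν.U (m + 1)})
      ((ν.isOpen (m + 1)).preimage (continuous_const.mul continuous_inv))
      ⟨γ a, by show γ a * (γ a)⁻¹ ∈ ν.U (m + 1); rw [mul_inv_cancel]; exact ν.one _⟩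
    exact ⟨j, hj⟩
  choose j hj using h1
  have hinj : Function.Injective j := by
    intro a b hab
    by_contra hne
    apply h a b hne
    have h2 := ν.mul m _ (hj a) _ (ν.inv _ _ (hj b))
    rw [hab] at h2
    have h3 : γ a * (d (j b))⁻¹ * (γ b * (d (j b))⁻¹)⁻¹ = γ a * (γ b)⁻¹ := by group
    rwa [h3] at h2
  exact hinj.countable

/-- In a thin space, a symmetric Borel relation `L` which relates all points `g • x`, `h • x` with
`g h⁻¹` small has no continuous discrete copy of the Cantor space. -/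
theorem thin_disc (hm : Measurable fun p : G × X => p.1 • p.2) (hth : Thin G X) (ν : Nb G)
    (m : ℕ) {L : X → X → Prop}
    (hnear : ∀ (x : X) (g h : G), g * h⁻¹ ∈ ν.U m → L (g • x) (h • x))
    {h : (ℕ → Bool) → X} (hh : Measurable h) (hL : ∀ b b', b ≠ b' → ¬ L (h b) (h b')) :
    False := by
  have hcount : ∀ b, {b' | ∃ g : G, g • h b = h b'}.Countable := by
    intro b
    choose γ hγ using fun b' : {b' | ∃ g : G, g • h b = h b'} => b'.2
    refine countable_of_far ν m (S := {b' | ∃ g : G, g • h b = h b'}) γ fun a c hac hmem => ?_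
    have h1 := hnear (h b) _ _ hmem
    rw [hγ a, hγ c] at h1
    exact hL _ _ (fun e => hac (Subtype.ext e)) h1
  have hana : AnalyticSet {p : (ℕ → Bool) × (ℕ → Bool) | ∃ g : G, g • h p.1 = h p.2} := by
    let _ := upgradeStandardBorel X
    have _ : PolishSpace (ℕ → Bool) := {}
    have h1 : MeasurableSet {q : G × ((ℕ → Bool) × (ℕ → Bool)) | q.1 • h q.2.1 = h q.2.2} := by
      apply measurableSet_eq_fun
      · exact hm.comp (measurable_fst.prodMk (hh.comp (measurable_fst.comp measurable_snd)))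
      · exact hh.comp (measurable_snd.comp measurable_snd)
    have h2 := h1.analyticSet.image_of_continuous (continuous_snd (X := G))
    have h3 : Prod.snd '' {q : G × ((ℕ → Bool) × (ℕ → Bool)) | q.1 • h q.2.1 = h q.2.2} =
        {p : (ℕ → Bool) × (ℕ → Bool) | ∃ g : G, g • h p.1 = h p.2} := by
      ext p
      constructor
      · rintro ⟨⟨g, p'⟩, hg, rfl⟩
        exact ⟨g, hg⟩
      · rintro ⟨g, hg⟩
        exact ⟨(g, p), hg, rfl⟩
    rwa [h3] at h2
  obtain ⟨c, hc, hcc⟩ := Pool.Agent.H566W.perfect_independent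
    (fun b b' => ∃ g : G, g • h b = h b') hana hcount
  exact hth ⟨fun b => h (c b), hh.comp hc.measurable, fun x y hxy => hcc x y hxy⟩

/-- similarity of points -/
def Sim (β : Base G) (ν : Nb G) (A : ℕ → Set X) {ι : Type} {r : ι → ι → Prop}
    (hr : WellFounded r) (i : ι) (a b : ℕ) (x y : X) : Prop :=
  Le β A hr i x (ν.U a) y (ν.U b) ∧ Le β A hr i y (ν.U a) x (ν.U b)

variable (β : Base G) (ν : Nb G) (A : ℕ → Set X) {ι : Type} {r : ι → ι → Prop}
  (hr : WellFounded r)

theorem Sim.symm {i : ι} {a b : ℕ} {x y : X} (h : Sim β ν A hr i a b x y) :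
    Sim β ν A hr i a b y x := ⟨h.2, h.1⟩

theorem Sim.comp {i : ι} {a b c : ℕ} {x y z : X} (h : Sim β ν A hr i a b x y)
    (h' : Sim β ν A hr i b c y z) (h'' : Sim β ν A hr i b c x y)
    (h''' : Sim β ν A hr i a b y z) : Sim β ν A hr i a c x z :=
  ⟨Le.trans β A hr i _ _ _ _ _ _ h.1 h'.1, Le.trans β A hr i _ _ _ _ _ _ h'''.2 h''.2⟩

theorem Sim.near (i : ι) (m : ℕ) (x : X) (g h : G) (hgh : g * h⁻¹ ∈ ν.U (m + 1)) :
    Sim β ν A hr i (m + 1) m (g • x) (h • x) := by
  have h1 := Le.translate β A hr i (g * h⁻¹) (h • x) (ν.U (m + 1)) (ν.U m)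
    (fun v hv => ν.mul m v hv _ hgh)
  have h2 := Le.translate β A hr i (h * g⁻¹) (g • x) (ν.U (m + 1)) (ν.U m)
    (fun v hv => ν.mul m v hv _ (by
      have := ν.inv _ _ hgh
      rwa [mul_inv_rev, inv_inv] at this))
  rw [mul_smul, inv_smul_smul] at h1 h2
  exact ⟨h1, h2⟩

theorem meas_Sim (hm : Measurable fun p : G × X => p.1 • p.2)
    (hA : ∀ n, MeasurableSet (A n)) [Countable ι] (i : ι) (a b : ℕ) :
    MeasurableSet {p : X × X | Sim β ν A hr i a b p.1 p.2} := by
  have h1 := meas_Le β hm hA hr i (ν.U a) (ν.U b) (ν.isOpen a) (ν.isOpen b)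
  exact h1.inter (measurable_swap h1)

theorem exists_cover (hm : Measurable fun p : G × X => p.1 • p.2) (hth : Thin G X)
    (hA : ∀ n, MeasurableSet (A n)) [Countable ι] (i : ι) (m : ℕ) :
    ∃ S : Set (Set X), S.Countable ∧ (∀ s ∈ S, MeasurableSet s) ∧ (∀ x, ∃ s ∈ S, x ∈ s) ∧
      ∀ s ∈ S, ∀ x ∈ s, ∀ z ∈ s, Le β A hr i x (ν.U (m + 4)) z (ν.U m) := by
  let L : X → X → Prop := fun x z => Sim β ν A hr i (m + 4) (m + 3) x z ∧
    Sim β ν A hr i (m + 3) (m + 2) x z ∧ Sim β ν A hr i (m + 2) (m + 1) x z ∧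
    Sim β ν A hr i (m + 1) m x z
  let L' : X → X → Prop := fun x z => Sim β ν A hr i (m + 4) (m + 2) x z ∧
    Sim β ν A hr i (m + 2) m x z
  have hLs : ∀ x y, L x y → L y x := fun x y h => ⟨h.1.symm, h.2.1.symm, h.2.2.1.symm,
    h.2.2.2.symm⟩
  have hLs' : ∀ x y, L' x y → L' y x := fun x y h => ⟨h.1.symm, h.2.symm⟩
  have hLL : ∀ x y z, L x y → L y z → L' x z := fun x y z h h' =>
    ⟨h.1.comp β ν A hr h'.2.1 h.2.1 h'.1, h.2.2.1.comp β ν A hr h'.2.2.2 h.2.2.2 h'.2.2.1⟩
  have hmL : MeasurableSet {q : X × X | L q.1 q.2} :=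
    (meas_Sim β ν A hr hm hA i _ _).inter ((meas_Sim β ν A hr hm hA i _ _).inter
      ((meas_Sim β ν A hr hm hA i _ _).inter (meas_Sim β ν A hr hm hA i _ _)))
  have hmL' : MeasurableSet {q : X × X | L' q.1 q.2} :=
    (meas_Sim β ν A hr hm hA i _ _).inter (meas_Sim β ν A hr hm hA i _ _)
  have hnear : ∀ (x : X) (g h : G), g * h⁻¹ ∈ ν.U (m + 4) → L (g • x) (h • x) := by
    intro x g h hgh
    exact ⟨Sim.near β ν A hr i _ x g h hgh, Sim.near β ν A hr i _ x g h (ν.anti (by omega) hgh),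
      Sim.near β ν A hr i _ x g h (ν.anti (by omega) hgh),
      Sim.near β ν A hr i _ x g h (ν.anti (by omega) hgh)⟩
  have hrefl : ∀ x, L x x := fun x => by
    have := hnear x 1 1 (by rw [inv_one, mul_one]; exact ν.one _)
    rwa [one_smul] at this
  obtain ⟨T, hT1, hT2⟩ := exists_net L' hLs' (fun x => hLL _ _ _ (hrefl x) (hrefl x))
  have hTc : T.Countable := by
    by_contra hTc
    let _ := upgradeStandardBorel X
    let _ := TopologicalSpace.upgradeIsCompletelyMetrizable X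
    obtain ⟨h, hh, hh2⟩ := approx hLs hLL hmL hmL' hTc hT1
    exact thin_disc hm hth ν (m + 4) hnear hh.measurable hh2
  refine ⟨(fun t => {x | L' x t}) '' T, hTc.image _, ?_, fun x => ?_, ?_⟩
  · rintro _ ⟨t, -, rfl⟩
    exact (measurable_id.prodMk measurable_const) hmL'
  · obtain ⟨t, ht, hxt⟩ := hT2 x
    exact ⟨_, ⟨t, ht, rfl⟩, hxt⟩
  · rintro _ ⟨t, -, rfl⟩ x hx z hz
    exact Le.trans β A hr i _ _ _ _ _ _ hx.1.1 hz.2.2

end Cover

end Pool.Agent.V8H42.TV
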