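import Mathlib

set_option autoImplicit false
set_option linter.unusedSectionVars false

/-!
# Polish topologies generated by countable families of Borel sets with closure properties
-/

namespace Pool.Agent.V8H42.TV

open Set Filter Topology MeasureTheory

theorem open_meas {X : Type} [TopologicalSpace X] [MeasurableSpace X] [BorelSpace X] {s : Set X}
    (h : IsOpen s) : MeasurableSet s := h.measurableSet

section

variable {X : Type} [t0 : TopologicalSpace X] [p0 : PolishSpace X] [MeasurableSpace X]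
  [b0 : BorelSpace X]

theorem borel_of_le {t : TopologicalSpace X} (ht : t ≤ t0) (hp : @PolishSpace X t) :
    @BorelSpace X t _ :=
  @BorelSpace.mk X t _ (b0.measurable_eq.trans (MeasureTheory.borel_eq_borel_of_le hp p0 ht).symm)

theorem exists_open {t : TopologicalSpace X} (ht : t ≤ t0) (hp : @PolishSpace X t)
    {F : Set (Set X)} (hF : F.Countable) (hFm : ∀ s ∈ F, MeasurableSet s) :
    ∃ t' : TopologicalSpace X, t' ≤ t ∧ @PolishSpace X t' ∧ ∀ s ∈ F, IsOpen[t'] s := by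
  have hb := @borel_of_le X t0 p0 _ b0 t ht hp
  have h1 : ∀ s : F, ∃ t' : TopologicalSpace X, t' ≤ t ∧ @PolishSpace X t' ∧ IsOpen[t'] s.1 := by
    intro s
    obtain ⟨t', h1, h2, -, h4⟩ := @MeasurableSet.isClopenable X t hp _ hb s.1
      (hFm s.1 s.2)
    exact ⟨t', h1, h2, h4⟩
  choose T hT1 hT2 hT3 using h1
  have _ : Countable F := hF
  obtain ⟨t', h1, h2, h3⟩ := @PolishSpace.exists_polishSpace_forall_le X F _ t hp T hT1 hT2
  exact ⟨t', h2, h3, fun s hs => h1 ⟨s, hs⟩ s (hT3 ⟨s, hs⟩)⟩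

/-- A countable family of Borel sets is contained in a countable family of Borel sets which is
closed under complements, intersections and given operations, and which is the base of a Polish
topology. -/
theorem exists_nice (S : Set (Set X)) (hSc : S.Countable) (hSm : ∀ s ∈ S, MeasurableSet s)
    (del : ℕ → Set X → Set X) (hdel : ∀ j s, MeasurableSet s → MeasurableSet (del j s)) :
    ∃ (t : TopologicalSpace X) (F : Set (Set X)), @PolishSpace X t ∧ @BorelSpace X t _ ∧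
      F.Countable ∧ S ⊆ F ∧ (∀ s ∈ F, IsOpen[t] s) ∧ (∀ s ∈ F, sᶜ ∈ F) ∧
      (∀ s ∈ F, ∀ u ∈ F, s ∩ u ∈ F) ∧ (∀ j, ∀ s ∈ F, del j s ∈ F) ∧
      ∀ O : Set X, IsOpen[t] O → ∀ x ∈ O, ∃ s ∈ F, x ∈ s ∧ s ⊆ O := by
  let P : TopologicalSpace X × Set (Set X) → Prop := fun p => p.1 ≤ t0 ∧ @PolishSpace X p.1 ∧
    p.2.Countable ∧ ∀ s ∈ p.2, MeasurableSet s
  let Q : TopologicalSpace X × Set (Set X) → TopologicalSpace X × Set (Set X) → Prop :=
    fun p q => q.1 ≤ p.1 ∧ p.2 ⊆ q.2 ∧ (∀ s ∈ p.2, IsOpen[q.1] s) ∧ (∀ s ∈ p.2, sᶜ ∈ q.2) ∧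
      (∀ s ∈ p.2, ∀ u ∈ p.2, s ∩ u ∈ q.2) ∧ (∀ j, ∀ s ∈ p.2, del j s ∈ q.2) ∧
      ∀ O : Set X, IsOpen[q.1] O → ∀ x ∈ O, ∃ s ∈ q.2, x ∈ s ∧ s ⊆ O
  have hstep : ∀ p : {p // P p}, ∃ q : {p // P p}, Q p.1 q.1 := by
    rintro ⟨⟨t, F⟩, ht, hp, hFc, hFm⟩
    obtain ⟨t', ht', hp', ho⟩ := @exists_open X t0 p0 _ b0 t ht hp F hFc hFm
    have hb' := @borel_of_le X t0 p0 _ b0 t' (ht'.trans ht) hp'
    obtain ⟨b, hbc, -, hb⟩ := @TopologicalSpace.exists_countable_basis X t' _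
    let F' : Set (Set X) := F ∪ compl '' F ∪ image2 (· ∩ ·) F F ∪ (⋃ j, del j '' F) ∪ b
    have hF'c : F'.Countable := ((((hFc.union (hFc.image _)).union (hFc.image2 hFc _)).union
      (countable_iUnion fun j => hFc.image _)).union hbc)
    have hF'm : ∀ s ∈ F', MeasurableSet s := by
      rintro s ((((hs | ⟨s, hs, rfl⟩) | ⟨s, hs, u, hu, rfl⟩) | hs) | hs)
      · exact hFm s hs
      · exact (hFm s hs).compl
      · exact (hFm s hs).inter (hFm u hu)
      · obtain ⟨j, hj⟩ := mem_iUnion.1 hs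
        obtain ⟨u, hu, rfl⟩ := hj
        exact hdel j u (hFm u hu)
      · exact @open_meas X t' _ hb' s
          (@TopologicalSpace.IsTopologicalBasis.isOpen X t' s b hb hs)
    refine ⟨⟨(t', F'), ht'.trans ht, hp', hF'c, hF'm⟩, ht', ?_, ho, ?_, ?_, ?_, ?_⟩
    · exact fun s hs => Or.inl (Or.inl (Or.inl (Or.inl hs)))
    · exact fun s hs => Or.inl (Or.inl (Or.inl (Or.inr ⟨s, hs, rfl⟩)))
    · exact fun s hs u hu => Or.inl (Or.inl (Or.inr ⟨s, hs, u, hu, rfl⟩))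
    · exact fun j s hs => Or.inl (Or.inr (mem_iUnion.2 ⟨j, s, hs, rfl⟩))
    · intro O hO x hx
      obtain ⟨v, hv, hxv, hvO⟩ :=
        @TopologicalSpace.IsTopologicalBasis.exists_subset_of_mem_open X t' b hb x O hx hO
      exact ⟨v, Or.inr hv, hxv, hvO⟩
  choose f hf using hstep
  let T : ℕ → {p // P p} := fun n => Nat.rec ⟨(t0, S), le_rfl, p0, hSc, hSm⟩ (fun _ p => f p) n
  have hT : ∀ n, Q (T n).1 (T (n + 1)).1 := fun n => hf (T n)
  have hFmono : Monotone fun n => (T n).1.2 := monotone_nat_of_le_succ fun n => (hT n).2.1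
  have htanti : Antitone fun n => (T n).1.1 := antitone_nat_of_succ_le fun n => (hT n).1
  have hp : @PolishSpace X (⨅ n, (T n).1.1) :=
    PolishSpace.iInf ⟨0, fun i => (T i).2.1⟩ (fun i => (T i).2.2.1)
  have hle : (⨅ n, (T n).1.1) ≤ t0 := iInf_le_of_le 0 le_rfl
  refine ⟨⨅ n, (T n).1.1, ⋃ n, (T n).1.2, hp, @borel_of_le X t0 p0 _ b0 _ hle hp,
    countable_iUnion fun n => (T n).2.2.2.1, ?_, ?_, ?_, ?_, ?_, ?_⟩
  · exact subset_iUnion_of_subset 0 Subset.rfl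
  · intro s hs
    obtain ⟨n, hn⟩ := mem_iUnion.1 hs
    exact (iInf_le (fun n => (T n).1.1) (n + 1)) s ((hT n).2.2.1 s hn)
  · intro s hs
    obtain ⟨n, hn⟩ := mem_iUnion.1 hs
    exact mem_iUnion.2 ⟨n + 1, (hT n).2.2.2.1 s hn⟩
  · intro s hs u hu
    obtain ⟨n, hn⟩ := mem_iUnion.1 hs
    obtain ⟨m, hm⟩ := mem_iUnion.1 hu
    exact mem_iUnion.2 ⟨max n m + 1, (hT _).2.2.2.2.1 s (hFmono (le_max_left n m) hn) u
      (hFmono (le_max_right n m) hm)⟩
  · intro j s hs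
    obtain ⟨n, hn⟩ := mem_iUnion.1 hs
    exact mem_iUnion.2 ⟨n + 1, (hT n).2.2.2.2.2.1 j s hn⟩
  · intro O hO x hx
    have h1 : O ∈ @nhds X (⨅ n, (T n).1.1) x := 
      @IsOpen.mem_nhds X (⨅ n, (T n).1.1) x O hO hx
    rw [nhds_iInf] at h1
    have h2 : Directed (· ≥ ·) fun n => @nhds X (T n).1.1 x := by
      intro n m
      exact ⟨max n m, nhds_mono (htanti (le_max_left n m)),
        nhds_mono (htanti (le_max_right n m))⟩
    obtain ⟨n, hn⟩ := (mem_iInf_of_directed h2 O).1 h1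
    have h3 : O ∈ @nhds X (T (n + 1)).1.1 x := nhds_mono (hT n).1 hn
    obtain ⟨O', hO'O, hO', hxO'⟩ := (@mem_nhds_iff X (T (n + 1)).1.1 x O).1 h3
    obtain ⟨s, hs, hxs, hsO⟩ := (hT n).2.2.2.2.2.2 O' hO' x hxO'
    exact ⟨s, mem_iUnion.2 ⟨n + 1, hs⟩, hxs, hsO.trans hO'O⟩

end

end Pool.Agent.V8H42.TV
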