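import Mathlib
import Pool.Agent.H579R3.SB
import Pool.Agent.H566W.Ana
import Pool.Agent.V8H42.TV.Base
import Pool.Agent.V8H42.TV.Approx
import Pool.Agent.V8H42.TV.Nice

set_option autoImplicit false
set_option linter.unusedSectionVars false

/-!
# Thin spaces with uncountably many orbits have nontrivial embeddings between different orbits
-/

namespace Pool.Agent.V8H42.TV

open Set Filter Topology MeasureTheory

/-- Analytic sets have the property of Baire. -/
theorem analytic_baire {X : Type*} [TopologicalSpace X] [SecondCountableTopology X] [T2Space X]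
    {A : Set X} (hA : AnalyticSet A) :
    ∃ u : Set X, IsOpen u ∧ ∀ᶠ x in residual X, (x ∈ A ↔ x ∈ u) := by
  rw [AnalyticSet] at hA
  rcases hA with rfl | ⟨f, hf, hfr⟩
  · exact ⟨∅, isOpen_empty, Eventually.of_forall fun _ => Iff.rfl⟩
  have h1 : IsMeagre (A \ H566W.Dn A) := H566W.sdiff_Dn A
  have h2 : IsMeagre (H566W.Dn A \ A) := by
    rw [← hfr]
    exact H566W.analytic_bp hf
  have h3 : BaireMeasurableSet (H566W.Dn A) :=
    ((H566W.Dn_closed A).isOpen_compl.baireMeasurableSet).of_compl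
  have h4 : A =ᶠ[residual X] H566W.Dn A := by
    rw [Filter.eventuallyEq_set]
    have h1' : (A \ H566W.Dn A)ᶜ ∈ residual X := h1
    have h2' : (H566W.Dn A \ A)ᶜ ∈ residual X := h2
    filter_upwards [h1', h2'] with x hx1 hx2
    constructor
    · intro hx
      by_contra hc
      exact hx1 ⟨hx, hc⟩
    · intro hx
      by_contra hc
      exact hx2 ⟨hx, hc⟩
  obtain ⟨u, hu, hAu⟩ := (h3.congr h4.symm).residualEq_isOpen
  exact ⟨u, hu, Filter.eventuallyEq_set.1 hAu⟩

section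

variable {G X : Type} [TopologicalSpace G] [Group G] [IsTopologicalGroup G] [PolishSpace G]
  [MeasurableSpace G] [BorelSpace G] [TopologicalSpace X] [PolishSpace X] [MeasurableSpace X]
  [BorelSpace X] [MulAction G X]

/-- a countable algebra of Borel sets, closed under Vaught transforms, which is a base of the
topology -/
structure Alg (β : Base G) (ν : Nb G) (F : Set (Set X)) : Prop where
  count : F.Countable
  isOpen : ∀ s ∈ F, IsOpen s
  compl : ∀ s ∈ F, sᶜ ∈ F
  inter : ∀ s ∈ F, ∀ u ∈ F, s ∩ u ∈ F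
  base : ∀ O : Set X, IsOpen O → ∀ x ∈ O, ∃ s ∈ F, x ∈ s ∧ s ⊆ O
  delV : ∀ k, ∀ s ∈ F, {x | NM (β.V k) x s} ∈ F
  delU : ∀ m, ∀ s ∈ F, {x | NM (ν.U m) x s} ∈ F
  delT : ∀ s ∈ F, {x | NM (univ : Set G) x s} ∈ F

variable {β : Base G} {ν : Nb G} {F : Set (Set X)}

/-- having the same type -/
def Same (G : Type) {X : Type} [TopologicalSpace G] [Group G] [MulAction G X] (F : Set (Set X))
    (x y : X) : Prop := ∀ s ∈ F, (NM (univ : Set G) x s ↔ NM (univ : Set G) y s)

/-- generic points of the type of `x₁` -/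
def Star (ν : Nb G) (F : Set (Set X)) (x₁ : X) : Set X :=
  {y | Same G F y x₁ ∧ ∀ s ∈ F, ∀ m, y ∈ s → NM (ν.U m) y s}

theorem NM_univ_smul (g : G) (x : X) (s : Set X) :
    NM (univ : Set G) (g • x) s ↔ NM (univ : Set G) x s := by
  constructor
  · intro h
    exact h.translate fun _ _ => mem_univ _
  · intro h
    have h1 : NM (univ : Set G) (g⁻¹ • (g • x)) s := by rwa [inv_smul_smul]
    exact h1.translate fun _ _ => mem_univ _

theorem Same.smul (g : G) (x : X) : Same G F (g • x) x := fun s _ => NM_univ_smul g x s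

theorem Same.symm {x y : X} (h : Same G F x y) : Same G F y x := fun s hs => (h s hs).symm

theorem Same.trans {x y z : X} (h : Same G F x y) (h' : Same G F y z) : Same G F x z :=
  fun s hs => (h s hs).trans (h' s hs)

theorem star_closed (hF : Alg β ν F) (x₁ : X) : IsClosed (Star ν F x₁) := by
  have hcl : ∀ s ∈ F, IsClosed s := fun s hs => by
    rw [← isOpen_compl_iff]
    exact hF.isOpen _ (hF.compl s hs)
  have h1 : Star ν F x₁ = (⋂ s ∈ F, {y | NM (univ : Set G) y s ↔ NM (univ : Set G) x₁ s}) ∩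
      ⋂ s ∈ F, ⋂ m : ℕ, (sᶜ ∪ {y | NM (ν.U m) y s}) := by
    ext y
    simp only [Star, Same, mem_ofPred_eq, mem_inter_iff, mem_iInter, mem_union, mem_compl_iff,
      imp_iff_not_or]
  rw [h1]
  refine IsClosed.inter (isClosed_biInter fun s hs => ?_) (isClosed_biInter fun s hs =>
    isClosed_iInter fun m => ((hF.isOpen s hs).isClosed_compl).union (hcl _ (hF.delU m s hs)))
  by_cases h : NM (univ : Set G) x₁ s
  · have : {y : X | NM (univ : Set G) y s ↔ NM (univ : Set G) x₁ s} =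
        {y | NM (univ : Set G) y s} := by
      ext y
      simp only [mem_ofPred_eq, h, iff_true]
    rw [this]
    exact hcl _ (hF.delT s hs)
  · have : {y : X | NM (univ : Set G) y s ↔ NM (univ : Set G) x₁ s} =
        {y | NM (univ : Set G) y s}ᶜ := by
      ext y
      simp only [mem_ofPred_eq, h, iff_false, mem_compl_iff]
    rw [this]
    exact (hF.isOpen _ (hF.delT s hs)).isClosed_compl

/-- comeager many translates of a point are generic -/
theorem star_generic (hF : Alg β ν F) {x x₁ : X} (hx : Same G F x x₁) :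
    ∀ᶠ g in residual G, g • x ∈ Star ν F x₁ := by
  have h1 : ∀ s ∈ F, ∀ᶠ g in residual G, ∀ m, g • x ∈ s → NM (ν.U m) (g • x) s := by
    intro s hs
    rw [eventually_countable_forall]
    intro m
    have h2 : IsMeagre (⋃ k ∈ {k | ¬ NM (β.V k) x s}, ({g : G | g • x ∈ s} ∩ β.V k)) := by
      refine isMeagre_biUnion (to_countable _) fun k hk => ?_
      have hk' : ¬ NM (β.V k) x s := hk
      unfold NM at hk'
      push Not at hk'
      exact hk'
    have h3 : (⋃ k ∈ {k | ¬ NM (β.V k) x s}, ({g : G | g • x ∈ s} ∩ β.V k))ᶜ ∈ residual G := h2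
    filter_upwards [h3] with g hg hgs
    by_contra hn
    apply hg
    have ho : IsOpen {u : G | u * g⁻¹ ∈ ν.U m} := (ν.isOpen m).preimage (continuous_mul_const _)
    obtain ⟨k, hk1, hk2⟩ := β.base _ ho g (by
      show g * g⁻¹ ∈ ν.U m
      rw [mul_inv_cancel]
      exact ν.one m)
    refine mem_biUnion (show k ∈ {k | ¬ NM (β.V k) x s} from fun hk => hn ?_) ⟨hgs, hk1⟩
    have h4 : NM (β.V k) (g⁻¹ • (g • x)) s := by rwa [inv_smul_smul]
    exact h4.translate fun v hv => hk2 hv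
  have h2 := (eventually_countable_ball hF.count).2 h1
  filter_upwards [h2] with g hg
  exact ⟨(Same.smul g x).trans hx, fun s hs m => hg s hs m⟩

theorem star_near {x₁ z x : X} {g : G} (hz : z ∈ Star ν F x₁) {s : Set X} (hs : s ∈ F)
    (hzs : z ∈ s) (hg : g • x = z) {O : Set G} (hO : IsOpen O) (hgO : g ∈ O) : NM O x s := by
  obtain ⟨m, hm⟩ := ν.base {u | u * g ∈ O} (hO.preimage (continuous_mul_const _)) (by
    show 1 * g ∈ O
    rwa [one_mul])
  have h1 := hz.2 s hs m hzs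
  rw [← hg] at h1
  exact h1.translate fun u hu => hm hu

theorem nonmeagre_orbit (hm : Measurable fun p : G × X => p.1 • p.2) (hth : Thin G X)
    (hF : Alg β ν F) {x₁ : X} (hne : (Star ν F x₁).Nonempty) :
    ∃ z₀ : Star ν F x₁, ¬ IsMeagre {z : Star ν F x₁ | ∃ g : G, g • (z₀ : X) = z} := by
  by_contra hcon
  push Not at hcon
  have hcl := star_closed hF x₁
  have _ : PolishSpace (Star ν F x₁) := hcl.polishSpace
  have _ : Nonempty (Star ν F x₁) := hne.to_subtype
  have hana : AnalyticSet {p : Star ν F x₁ × Star ν F x₁ | ∃ g : G, g • (p.1 : X) = p.2} := by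
    have h1 : MeasurableSet {q : G × (Star ν F x₁ × Star ν F x₁) |
        q.1 • (q.2.1 : X) = q.2.2} := by
      apply measurableSet_eq_fun
      · exact hm.comp (measurable_fst.prodMk (measurable_subtype_coe.comp
          (measurable_fst.comp measurable_snd)))
      · exact measurable_subtype_coe.comp (measurable_snd.comp measurable_snd)
    have h2 := h1.analyticSet.image_of_continuous (continuous_snd (X := G))
    have h3 : Prod.snd '' {q : G × (Star ν F x₁ × Star ν F x₁) | q.1 • (q.2.1 : X) = q.2.2} =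
        {p : Star ν F x₁ × Star ν F x₁ | ∃ g : G, g • (p.1 : X) = p.2} := by
      ext p
      constructor
      · rintro ⟨⟨g, p'⟩, hg, rfl⟩
        exact ⟨g, hg⟩
      · rintro ⟨g, hg⟩
        exact ⟨(g, p), hg, rfl⟩
    rwa [h3] at h2
  have hmea : IsMeagre {p : Star ν F x₁ × Star ν F x₁ | ∃ g : G, g • (p.1 : X) = p.2} := by
    rw [AnalyticSet] at hana
    rcases hana with h | ⟨f, hf, hfr⟩
    · rw [h]; exact IsMeagre.empty
    · rw [← hfr]
      apply H566W.meagre_of_sections hf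
      intro x
      rw [hfr]
      exact hcon x
  obtain ⟨S, hSo, hSd, hSc, hS⟩ := mem_residual_iff.1 hmea
  obtain ⟨W, hW⟩ := (hSc.insert univ).exists_eq_range ⟨univ, mem_insert _ _⟩
  have hWS : ∀ n, W n = univ ∨ W n ∈ S := by
    intro n
    have : W n ∈ insert univ S := by rw [hW]; exact ⟨n, rfl⟩
    exact this
  obtain ⟨h, hh1, hh2⟩ := Pool.Agent.H565R2.FO2.mycielski' W (fun n => by
    rcases hWS n with h | h
    · rw [h]; exact isOpen_univ
    · exact hSo _ h) (fun n => by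
    rcases hWS n with h | h
    · rw [h]; exact dense_univ
    · exact hSd _ h)
  refine hth ⟨fun b => (h b : X), measurable_subtype_coe.comp hh1.measurable,
    fun b b' hbb hR => ?_⟩
  refine hS (a := (h b, h b')) (fun t ht => ?_) hR
  have : t ∈ range W := by rw [← hW]; exact mem_insert_of_mem _ ht
  obtain ⟨n, rfl⟩ := this
  exact hh2 b b' hbb n

/-- a generic point with locally comeager local orbits -/
theorem exists_prime (hm : Measurable fun p : G × X => p.1 • p.2) (hth : Thin G X)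
    (hF : Alg β ν F) {x₁ : X} (hne : (Star ν F x₁).Nonempty) :
    ∃ x₀ : Star ν F x₁, ∀ m, ∃ B ∈ F, (x₀ : X) ∈ B ∧
      ∀ᶠ z : Star ν F x₁ in residual (Star ν F x₁), (z : X) ∈ B →
        ∃ u ∈ ν.U m, u • (x₀ : X) = z := by
  obtain ⟨z₀, hz₀⟩ := nonmeagre_orbit hm hth hF hne
  have hcl := star_closed hF x₁
  have _ : PolishSpace (Star ν F x₁) := hcl.polishSpace
  let d : ℕ → G := TopologicalSpace.denseSeq G
  have hd : DenseRange d := TopologicalSpace.denseRange_denseSeq _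
  let S : ℕ → ℕ → Set (Star ν F x₁) := fun m k =>
    {z | ∃ u ∈ ν.U (m + 1), (u * d k) • (z₀ : X) = z}
  have hS : ∀ m k, ∃ O : Set (Star ν F x₁), IsOpen O ∧
      ∀ᶠ z in residual (Star ν F x₁), (z ∈ S m k ↔ z ∈ O) := by
    intro m k
    apply analytic_baire
    have h1 : AnalyticSet ((fun u : G => (u * d k) • (z₀ : X)) '' ν.U (m + 1)) := by
      refine MeasurableSet.analyticSet_image (ν.isOpen (m + 1)).measurableSet ?_
      exact (meas_orb hm (z₀ : X)).comp (measurable_mul_const (d k))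
    have h2 := h1.preimage (continuous_subtype_val : Continuous (Subtype.val : Star ν F x₁ → X))
    exact h2
  choose O hO1 hO2 using hS
  have hres : ∀ᶠ z in residual (Star ν F x₁), ∀ m k, (z ∈ S m k ↔ z ∈ O m k) := by
    rw [eventually_countable_forall]
    intro m
    rw [eventually_countable_forall]
    exact hO2 m
  have hex : ∃ x₀ : Star ν F x₁, (∃ g : G, g • (z₀ : X) = x₀) ∧
      ∀ m k, (x₀ ∈ S m k ↔ x₀ ∈ O m k) := by
    by_contra hcon
    push Not at hcon
    apply hz₀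
    show {z : Star ν F x₁ | ∃ g : G, g • (z₀ : X) = z}ᶜ ∈ residual _
    filter_upwards [hres] with z hz hzo
    obtain ⟨m, k, hmk⟩ := hcon z hzo
    have := hz m k
    tauto
  obtain ⟨x₀, ⟨g, hg⟩, hx₀⟩ := hex
  refine ⟨x₀, fun m => ?_⟩
  obtain ⟨k, hk⟩ := hd.exists_mem_open (s := {x : G | g * x⁻¹ ∈ ν.U (m + 1)})
    ((ν.isOpen (m + 1)).preimage (continuous_const.mul continuous_inv))
    ⟨g, by show g * g⁻¹ ∈ ν.U (m + 1); rw [mul_inv_cancel]; exact ν.one _⟩
  have hk' : g * (d k)⁻¹ ∈ ν.U (m + 1) := hk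
  have hxS : x₀ ∈ S m k := ⟨g * (d k)⁻¹, hk', by rw [inv_mul_cancel_right]; exact hg⟩
  have hxO := (hx₀ m k).1 hxS
  obtain ⟨O', hO', hOO'⟩ := isOpen_induced_iff.1 (hO1 m k)
  have hxO' : (x₀ : X) ∈ O' := by
    have : x₀ ∈ Subtype.val ⁻¹' O' := by rw [hOO']; exact hxO
    exact this
  obtain ⟨B, hB, hxB, hBO⟩ := hF.base O' hO' _ hxO'
  refine ⟨B, hB, hxB, ?_⟩
  filter_upwards [hO2 m k] with z hz hzB
  have hzO : z ∈ O m k := by rw [← hOO']; exact hBO hzB
  obtain ⟨u, hu, huz⟩ := hz.2 hzO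
  refine ⟨u * (g * (d k)⁻¹)⁻¹, ν.mul m u hu _ (ν.inv _ _ hk'), ?_⟩
  rw [← hg, ← huz, ← mul_smul]
  congr 1
  group

/-- the neighbourhoods of a prime point -/
theorem prime_near (hF : Alg β ν F) {x₁ : X} {x₀ : Star ν F x₁}
    {m : ℕ} {B : Set X} (hB : B ∈ F)
    (hres : ∀ᶠ z : Star ν F x₁ in residual (Star ν F x₁), (z : X) ∈ B →
        ∃ u ∈ ν.U m, u • (x₀ : X) = z)
    {y : X} (hy : y ∈ Star ν F x₁) (hyB : y ∈ B) {s : Set X} (hs : s ∈ F)
    (hx₀s : (x₀ : X) ∈ s) : NM (ν.U m) y s := by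
  by_contra hn
  have hcl := star_closed hF x₁
  have _ : PolishSpace (Star ν F x₁) := hcl.polishSpace
  have hE : B ∩ {x | NM (ν.U m) x s}ᶜ ∈ F := hF.inter _ hB _ (hF.compl _ (hF.delU m s hs))
  have hEo : IsOpen (Subtype.val ⁻¹' (B ∩ {x | NM (ν.U m) x s}ᶜ) : Set (Star ν F x₁)) :=
    (hF.isOpen _ hE).preimage continuous_subtype_val
  have hEn : (Subtype.val ⁻¹' (B ∩ {x | NM (ν.U m) x s}ᶜ) : Set (Star ν F x₁)).Nonempty :=
    ⟨⟨y, hy⟩, hyB, hn⟩
  obtain ⟨z, hzE, hz⟩ := (dense_of_mem_residual hres).inter_open_nonempty _ hEo hEn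
  obtain ⟨u, hu, huz⟩ := hz hzE.1
  apply hzE.2
  show NM (ν.U m) (z : X) s
  refine star_near (ν := ν) (F := F) (x₁ := x₁) x₀.2 hs hx₀s (g := u⁻¹) ?_ (ν.isOpen m)
    (ν.inv m u hu)
  rw [← huz, inv_smul_smul]

/-- the sequence of group elements -/
theorem exists_seq (hF : Alg β ν F) {x₁ : X} {x₀ : Star ν F x₁}
    (hx₀ : ∀ m, ∃ B ∈ F, (x₀ : X) ∈ B ∧
      ∀ᶠ z : Star ν F x₁ in residual (Star ν F x₁), (z : X) ∈ B →
        ∃ u ∈ ν.U m, u • (x₀ : X) = z)
    {y : X} (hy : Same G F y x₁) :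
    ∃ g : ℕ → G, (∀ n, g (n + 1) * (g n)⁻¹ ∈ ν.U n) ∧
      ∀ s ∈ F, (x₀ : X) ∈ s → ∀ᶠ n in atTop, g n • y ∈ s := by
  choose B hB hx₀B hBres using hx₀
  have hQne : {s ∈ F | (x₀ : X) ∈ s}.Nonempty := ⟨B 0, hB 0, hx₀B 0⟩
  obtain ⟨Q, hQ⟩ := (hF.count.mono (sep_subset F fun s => (x₀ : X) ∈ s)).exists_eq_range hQne
  have hQm : ∀ n, Q n ∈ F ∧ (x₀ : X) ∈ Q n := fun n => by
    have : Q n ∈ {s ∈ F | (x₀ : X) ∈ s} := by rw [hQ]; exact mem_range_self n
    exact this
  have hD : ∀ n, ∃ D ∈ F, (x₀ : X) ∈ D ∧ D ⊆ B n ∧ ∀ j < n, D ⊆ Q j := by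
    intro n
    have : ∀ k, ∃ D ∈ F, (x₀ : X) ∈ D ∧ D ⊆ B n ∧ ∀ j < k, D ⊆ Q j := by
      intro k
      induction k with
      | zero => exact ⟨B n, hB n, hx₀B n, Subset.rfl, fun j hj => absurd hj (Nat.not_lt_zero j)⟩
      | succ k ih =>
        obtain ⟨D, h1, h2, h3, h4⟩ := ih
        refine ⟨D ∩ Q k, hF.inter _ h1 _ (hQm k).1, ⟨h2, (hQm k).2⟩,
          inter_subset_left.trans h3, fun j hj => ?_⟩
        rcases Nat.lt_succ_iff_lt_or_eq.1 hj with hj | rfl
        · exact inter_subset_left.trans (h4 j hj)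
        · exact inter_subset_right
    exact this n
  choose D hD1 hD2 hD3 hD4 using hD
  have h0 : ∃ g : G, g • y ∈ Star ν F x₁ ∧ g • y ∈ D 0 := by
    have h1 : NM (univ : Set G) (x₀ : X) (D 0) :=
      (x₀.2.2 _ (hD1 0) 0 (hD2 0)).mono (subset_univ _) Subset.rfl
    have h2 : NM (univ : Set G) y (D 0) := (hy _ (hD1 0)).2 ((x₀.2.1 _ (hD1 0)).1 h1)
    obtain ⟨g, -, hg1, hg2⟩ := h2.exists (star_generic hF hy)
    exact ⟨g, hg2, hg1⟩
  have hstep : ∀ n (g : {g : G // g • y ∈ Star ν F x₁ ∧ g • y ∈ D n}),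
      ∃ g' : {g : G // g • y ∈ Star ν F x₁ ∧ g • y ∈ D (n + 1)}, g'.1 * g.1⁻¹ ∈ ν.U n := by
    rintro n ⟨g, hg1, hg2⟩
    have h1 : NM (ν.U n) (g • y) (D (n + 1)) :=
      prime_near hF (hB n) (hBres n) hg1 (hD3 n hg2) (hD1 (n + 1)) (hD2 (n + 1))
    obtain ⟨u, hu, hu1, hu2⟩ := h1.exists (star_generic hF hg1.1)
    refine ⟨⟨u * g, by rw [mul_smul]; exact hu2, by rw [mul_smul]; exact hu1⟩, ?_⟩
    show u * g * g⁻¹ ∈ ν.U n
    rwa [mul_inv_cancel_right]
  choose f hf using hstep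
  obtain ⟨g0, hg0⟩ := h0
  let T : ∀ n, {g : G // g • y ∈ Star ν F x₁ ∧ g • y ∈ D n} := fun n =>
    Nat.rec ⟨g0, hg0⟩ (fun n g => f n g) n
  refine ⟨fun n => (T n).1, fun n => hf n (T n), fun s hs hxs => ?_⟩
  have : s ∈ range Q := by rw [← hQ]; exact ⟨hs, hxs⟩
  obtain ⟨j, rfl⟩ := this
  filter_upwards [eventually_gt_atTop j] with n hn
  exact hD4 n j hn (T n).2.2

/-- if the sequence converges then the two points are in the same orbit -/
theorem same_orbit (hm : Measurable fun p : G × X => p.1 • p.2) (hF : Alg β ν F)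
    {x₀ y : X} {g : ℕ → G} {a : G} (hg : Tendsto g atTop (𝓝 a))
    (h : ∀ s ∈ F, x₀ ∈ s → ∀ᶠ n in atTop, g n • y ∈ s) : x₀ = a • y := by
  have hmeas : ∀ s ∈ F, MeasurableSet s := fun s hs => (hF.isOpen s hs).measurableSet
  have h1 : ∀ s ∈ F, ∀ k, NM (β.V k) x₀ s → NM (β.V k) (a • y) s := by
    intro s hs k hk
    have h2 : ∃ l m, (∀ v ∈ β.V l, ∀ u ∈ ν.U m, v * u ∈ β.V k) ∧ NM (β.V l) x₀ s := by
      by_contra hcon
      push Not at hcon
      apply hk
      have h3 : IsMeagre (⋃ l ∈ {l | ¬ NM (β.V l) x₀ s}, ({g : G | g • x₀ ∈ s} ∩ β.V l)) := by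
        refine isMeagre_biUnion (to_countable _) fun l hl => ?_
        have hl' : ¬ NM (β.V l) x₀ s := hl
        unfold NM at hl'
        push Not at hl'
        exact hl'
      refine h3.mono ?_
      rintro v ⟨hv1, hv2⟩
      have ho : IsOpen {p : G × G | p.1 * p.2 ∈ β.V k} := (β.isOpen k).preimage continuous_mul
      obtain ⟨V', U', hV', hU', hvV, h1U, hVU⟩ := isOpen_prod_iff.1 ho v 1 (by
        show v * 1 ∈ β.V k
        rwa [mul_one])
      obtain ⟨l, hl1, hl2⟩ := β.base V' hV' v hvV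
      obtain ⟨m, hm1⟩ := ν.base U' hU' h1U
      refine mem_biUnion (show l ∈ {l | ¬ NM (β.V l) x₀ s} from ?_) ⟨hv1, hl1⟩
      exact hcon l m fun v hv u hu => hVU (show (v, u) ∈ V' ×ˢ U' from ⟨hl2 hv, hm1 hu⟩)
    obtain ⟨l, m, hlm, hl⟩ := h2
    have h3 := h _ (hF.delV l s hs) hl
    have h4 : ∀ᶠ n in atTop, g n * a⁻¹ ∈ ν.U m := by
      have h5 : Tendsto (fun n => g n * a⁻¹) atTop (𝓝 (a * a⁻¹)) := hg.mul_const _
      rw [mul_inv_cancel] at h5
      exact h5.eventually ((ν.isOpen m).mem_nhds (ν.one m))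
    obtain ⟨n, hn1, hn2⟩ := (h3.and h4).exists
    have h6 : NM (β.V l) ((g n * a⁻¹) • (a • y)) s := by
      rw [mul_smul, inv_smul_smul]
      exact hn1
    exact h6.translate fun v hv => hlm v hv _ hn2
  have h2 : ∀ s ∈ F, ∀ᶠ g in residual G, (g • x₀ ∈ s → g • (a • y) ∈ s) := by
    intro s hs
    by_contra hcon
    have h3 : ¬ IsMeagre {g : G | g • x₀ ∈ s ∧ g • (a • y) ∉ s} := by
      intro hm'
      apply hcon
      have h4 : {g : G | g • x₀ ∈ s ∧ g • (a • y) ∉ s}ᶜ ∈ residual G := hm'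
      filter_upwards [h4] with g hg hgs
      by_contra hn
      exact hg ⟨hgs, hn⟩
    obtain ⟨k, -, hk1, hk2⟩ := Pool.Agent.H468R2.KA.F_vt_q β.V β.base
      {g : G | g • x₀ ∈ s ∧ g • (a • y) ∉ s}
      ((meas_orb hm x₀ (hmeas s hs)).inter (meas_orb hm (a • y) (hmeas s hs)).compl) univ
      isOpen_univ (by rwa [inter_univ])
    have h5 : NM (β.V k) x₀ s := by
      apply NM.of_compl
      intro hn
      apply hn
      refine hk2.mono ?_
      rintro g ⟨hg1, hg2⟩
      exact ⟨hg2, fun hg3 => hg1 hg3.1⟩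
    apply h1 s hs k h5
    refine hk2.mono ?_
    rintro g ⟨hg1, hg2⟩
    exact ⟨hg2, fun hg3 => hg3.2 hg1⟩
  have h3 := (eventually_countable_ball hF.count).2 h2
  obtain ⟨b, hb⟩ := (dense_of_mem_residual h3).nonempty
  have hb' : ∀ s ∈ F, b • x₀ ∈ s → b • (a • y) ∈ s := hb
  have h4 : b • x₀ = b • (a • y) := by
    by_contra hne
    obtain ⟨O, O', hO, -, h5, h6, h7⟩ := t2_separation hne
    obtain ⟨s, hs, hs1, hs2⟩ := hF.base O hO _ h5
    exact disjoint_left.1 h7 (hs2 (hb' s hs hs1)) h6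
  have h5 := congrArg (fun z => b⁻¹ • z) h4
  simpa only [inv_smul_smul] using h5

end

section

variable {G X : Type} [TopologicalSpace G] [Group G] [IsTopologicalGroup G] [PolishSpace G]
  [MeasurableSpace G] [BorelSpace G] [MeasurableSpace X] [StandardBorelSpace X] [MulAction G X]

/-- The main construction: in a thin space with uncountably many orbits, for every countable
family of Borel sets there are points `x₀` and `y` and a divergent sequence `g` of group elements
with `g (n + 1) (g n)⁻¹` small such that `g n • y` is eventually in every set of the family which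
contains `x₀`. -/
theorem core (β : Base G) (ν : Nb G) (hm : Measurable fun p : G × X => p.1 • p.2)
    (hth : Thin G X) (hunc : ¬ ∃ S : Set X, S.Countable ∧ ∀ x, ∃ s ∈ S, ∃ g : G, g • s = x)
    (S : Set (Set X)) (hSc : S.Countable) (hSm : ∀ s ∈ S, MeasurableSet s) :
    ∃ (x₀ y : X) (g : ℕ → G), (∀ n, g (n + 1) * (g n)⁻¹ ∈ ν.U n) ∧
      (∀ s ∈ S, x₀ ∈ s → ∀ᶠ n in atTop, g n • y ∈ s) ∧ ¬ ∃ a, Tendsto g atTop (𝓝 a) := by
  let _ := upgradeStandardBorel X
  let W : ℕ → Set G := fun j => if j % 3 = 0 then β.V (j / 3) else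
    if j % 3 = 1 then ν.U (j / 3) else univ
  have hW : ∀ j, IsOpen (W j) := by
    intro j
    show IsOpen (if j % 3 = 0 then β.V (j / 3) else if j % 3 = 1 then ν.U (j / 3) else univ)
    split_ifs
    · exact β.isOpen _
    · exact ν.isOpen _
    · exact isOpen_univ
  obtain ⟨t, F, hp, hb, hFc, hSF, hFo, hFcompl, hFinter, hFdel, hFbase⟩ :=
    exists_nice S hSc hSm (fun j s => {x | NM (W j) x s}) (fun j s hs => meas_NM β hm (hW j) hs)
  let _ := t
  have hF : Alg β ν F := by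
    refine ⟨hFc, hFo, hFcompl, hFinter, hFbase, fun k s hs => ?_, fun k s hs => ?_,
      fun s hs => ?_⟩
    · have := hFdel (3 * k) s hs
      have e : W (3 * k) = β.V k := by
        show (if 3 * k % 3 = 0 then β.V (3 * k / 3) else _) = _
        rw [if_pos (by omega)]
        congr 1
        omega
      rwa [e] at this
    · have := hFdel (3 * k + 1) s hs
      have e : W (3 * k + 1) = ν.U k := by
        show (if (3 * k + 1) % 3 = 0 then _ else if (3 * k + 1) % 3 = 1 then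
          ν.U ((3 * k + 1) / 3) else _) = _
        rw [if_neg (by omega), if_pos (by omega)]
        congr 1
        omega
      rwa [e] at this
    · exact hFdel 2 s hs
  -- two points of the same type in different orbits
  have h2 : ∃ x₁ y₁ : X, Same G F x₁ y₁ ∧ ¬ ∃ g : G, g • x₁ = y₁ := by
    by_contra hcon
    push Not at hcon
    have hE : Equivalence (Same G F : X → X → Prop) :=
      ⟨fun x s hs => Iff.rfl, fun h => h.symm, fun h h' => h.trans h'⟩
    have hEm : MeasurableSet {q : X × X | Same G F q.1 q.2} := by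
      have : {q : X × X | Same G F q.1 q.2} = ⋂ s ∈ F,
          {q : X × X | NM (univ : Set G) q.1 s ↔ NM (univ : Set G) q.2 s} := by
        ext q
        simp only [Same, mem_ofPred_eq, mem_iInter]
      rw [this]
      refine MeasurableSet.biInter hFc fun s hs => ?_
      have h3 : MeasurableSet {x : X | NM (univ : Set G) x s} :=
        meas_NM β hm isOpen_univ (hFo s hs).measurableSet
      exact MeasurableSet.iff (measurable_fst h3) (measurable_snd h3)
    rcases Pool.Agent.H579R3.SV.silver hE hEm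
      (MeasurableSet.univ.analyticSet : AnalyticSet (univ : Set X)) with
      ⟨T, -, hTc, hT⟩ | ⟨h, hh1, -, hh2⟩
    · apply hunc
      refine ⟨T, hTc, fun x => ?_⟩
      obtain ⟨s, hs, hxs⟩ := hT x (mem_univ x)
      obtain ⟨g, hg⟩ := hcon s x hxs.symm
      exact ⟨s, hs, g, hg⟩
    · refine hth ⟨h, hh1.measurable, fun b b' hbb hR => ?_⟩
      obtain ⟨g, hg⟩ := hR
      apply hh2 b b' hbb
      rw [← hg]
      exact (Same.smul g (h b)).symm
  obtain ⟨x₁, y₁, hxy, hno⟩ := h2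
  have hne : (Star ν F x₁).Nonempty := by
    obtain ⟨g, hg⟩ := (dense_of_mem_residual
      (star_generic (ν := ν) hF (x := x₁) (x₁ := x₁) (fun _ _ => Iff.rfl))).nonempty
    exact ⟨_, hg⟩
  obtain ⟨x₀, hx₀⟩ := exists_prime hm hth hF hne
  have hy : ∃ y, Same G F y x₁ ∧ ¬ ∃ g : G, g • y = (x₀ : X) := by
    by_contra hcon
    push Not at hcon
    obtain ⟨g, hg⟩ := hcon x₁ (fun _ _ => Iff.rfl)
    obtain ⟨g', hg'⟩ := hcon y₁ hxy.symm
    apply hno
    refine ⟨g'⁻¹ * g, ?_⟩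
    rw [mul_smul, hg, ← hg', inv_smul_smul]
  obtain ⟨y, hy1, hy2⟩ := hy
  obtain ⟨g, hg1, hg2⟩ := exists_seq hF hx₀ hy1
  refine ⟨x₀, y, g, hg1, fun s hs => hg2 s (hSF hs), ?_⟩
  rintro ⟨a, ha⟩
  exact hy2 ⟨a, (same_orbit hm hF ha hg2).symm⟩

end

end Pool.Agent.V8H42.TV
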