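import Mathlib
import Pool.Agent.Helper890.TM.Bdd
import Pool.Agent.V8H42.TV.Core
import Pool.Agent.V8H42.TV.Fusion

set_option autoImplicit false
set_option linter.unusedSectionVars false

/-!
# The topological Vaught conjecture for actions with complete stabilizers
-/

namespace Pool.Agent.V8H42.TV

open Set Filter Topology MeasureTheory
open Pool.Agent.Helper890.TM (rel exists_not_wf)

section Seq

variable {G : Type} [TopologicalSpace G] [Group G] [IsTopologicalGroup G] (ν : Nb G)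

theorem tendsto_one {u : ℕ → G} (h : ∀ m, ∀ᶠ n in atTop, u n ∈ ν.U m) :
    Tendsto u atTop (𝓝 1) := by
  rw [tendsto_nhds]
  intro O hO h1
  obtain ⟨m, hm⟩ := ν.base O hO h1
  filter_upwards [h m] with n hn
  exact hm hn

theorem seq_near {g : ℕ → G} (hg : ∀ n, g (n + 1) * (g n)⁻¹ ∈ ν.U n) (j : ℕ) :
    ∀ q, g (q + 1 + j) * (g (q + 1))⁻¹ ∈ ν.U q := by
  induction j with
  | zero =>
    intro q
    rw [add_zero, mul_inv_cancel]
    exact ν.one q
  | succ j ih =>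
    intro q
    have h1 := ν.mul q _ (ih (q + 1)) _ (hg (q + 1))
    have e : g (q + 1 + 1 + j) * (g (q + 1 + 1))⁻¹ * (g (q + 1 + 1) * (g (q + 1))⁻¹) =
        g (q + 1 + (j + 1)) * (g (q + 1))⁻¹ := by
      rw [show q + 1 + (j + 1) = q + 1 + 1 + j by ring]
      group
    rwa [e] at h1

theorem seq_near' {g : ℕ → G} (hg : ∀ n, g (n + 1) * (g n)⁻¹ ∈ ν.U n) {q m p : ℕ}
    (hm : q + 1 ≤ m) (hp : m ≤ p) : g p * (g m)⁻¹ ∈ ν.U q := by
  obtain ⟨a, rfl⟩ := Nat.exists_eq_add_of_le hm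
  obtain ⟨b, rfl⟩ := Nat.exists_eq_add_of_le hp
  have h1 := seq_near ν hg b (q + a)
  rw [show q + a + 1 = q + 1 + a by ring] at h1
  exact ν.anti (Nat.le_add_right q a) h1

theorem seq_near'' {g : ℕ → G} (hg : ∀ n, g (n + 1) * (g n)⁻¹ ∈ ν.U n) {q m p : ℕ}
    (hm : q + 1 ≤ m) (hp : q + 1 ≤ p) : g p * (g m)⁻¹ ∈ ν.U q := by
  rcases le_total m p with h | h
  · exact seq_near' ν hg hm h
  · have h1 := ν.inv _ _ (seq_near' ν hg hp h)
    rwa [mul_inv_rev, inv_inv] at h1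

/-- the divergent sequence produces a divergent Cauchy sequence of the stabilizer -/
theorem stab_seq {X : Type} [MulAction G X] {x₀ y : X} {g : ℕ → G}
    (hg : ∀ n, g (n + 1) * (g n)⁻¹ ∈ ν.U n)
    (h : ∀ m, ∃ n, m ≤ n ∧ ∃ a ∈ ν.U m, ∃ b, b * (g n)⁻¹ ∈ ν.U m ∧ b • y = a • x₀)
    (hcli : ∀ t : ℕ → G, (∀ n, t n • x₀ = x₀) →
      (∀ O : Set G, IsOpen O → (1 : G) ∈ O → ∃ N, ∀ m n, N ≤ m → N ≤ n →
        t m * (t n)⁻¹ ∈ O) → ∃ a, Tendsto t atTop (𝓝 a)) : ∃ a, Tendsto g atTop (𝓝 a) := by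
  choose n hn a ha b hb hab using h
  let s : ℕ → G := fun m => (a m)⁻¹ * b m
  let e : ℕ → G := fun m => (a m)⁻¹ * (b m * (g (n m))⁻¹)
  have hs : ∀ m, s m • y = x₀ := fun m => by
    show ((a m)⁻¹ * b m) • y = x₀
    rw [mul_smul, hab, inv_smul_smul]
  have hse : ∀ m, s m = e m * g (n m) := fun m => by
    show (a m)⁻¹ * b m = (a m)⁻¹ * (b m * (g (n m))⁻¹) * g (n m)
    group
  have he : ∀ m, e (m + 1) ∈ ν.U m := fun m =>
    ν.mul m _ (ν.inv _ _ (ha (m + 1))) _ (hb (m + 1))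
  have he' : ∀ M m, M + 1 ≤ m → e m ∈ ν.U M := by
    intro M m hm
    obtain ⟨k, rfl⟩ := Nat.exists_eq_add_of_le hm
    have h1 := he (M + k)
    rw [show M + k + 1 = M + 1 + k by ring] at h1
    exact ν.anti (Nat.le_add_right M k) h1
  have he1 : Tendsto e atTop (𝓝 1) := tendsto_one ν fun M => by
    filter_upwards [eventually_ge_atTop (M + 1)] with m hm
    exact he' M m hm
  obtain ⟨c, hc⟩ := hcli (fun m => s m * (s 0)⁻¹) (fun m => by
    show (s m * (s 0)⁻¹) • x₀ = x₀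
    conv_lhs => rw [← hs 0, ← mul_smul, inv_mul_cancel_right]
    exact hs m) (fun O hO h1 => by
    obtain ⟨M, hM⟩ := ν.base O hO h1
    refine ⟨M + 3, fun p q hp hq => hM ?_⟩
    have h2 : e p ∈ ν.U (M + 2) := he' _ _ (by omega)
    have h3 : (e q)⁻¹ ∈ ν.U (M + 2) := ν.inv _ _ (he' _ _ (by omega))
    have h4 : g (n p) * (g (n q))⁻¹ ∈ ν.U (M + 2) :=
      seq_near'' ν hg (by have := hn q; omega) (by have := hn p; omega)
    have h5 := ν.mul M _ (ν.mul (M + 1) _ h2 _ h4) _ (ν.succ_sub (M + 1) h3)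
    have h6 : e p * (g (n p) * (g (n q))⁻¹) * (e q)⁻¹ =
        s p * (s 0)⁻¹ * (s q * (s 0)⁻¹)⁻¹ := by
      rw [hse p, hse q]
      group
    rwa [h6] at h5)
  let d := c * s 0
  have hsd : Tendsto s atTop (𝓝 d) := by
    have h1 : Tendsto (fun m => s m * (s 0)⁻¹ * s 0) atTop (𝓝 (c * s 0)) := hc.mul_const _
    refine h1.congr fun m => ?_
    rw [inv_mul_cancel_right]
  have hgd : Tendsto (fun m => g (n m)) atTop (𝓝 d) := by
    have h1 : Tendsto (fun m => (e m)⁻¹ * s m) atTop (𝓝 (1⁻¹ * d)) := he1.inv.mul hsd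
    rw [inv_one, one_mul] at h1
    refine h1.congr fun m => ?_
    rw [hse m, inv_mul_cancel_left]
  refine ⟨d, ?_⟩
  have h2 : Tendsto (fun k => g k * d⁻¹) atTop (𝓝 1) := tendsto_one ν fun M => by
    have h3 : Tendsto (fun m => g (n m) * d⁻¹) atTop (𝓝 (d * d⁻¹)) := hgd.mul_const _
    rw [mul_inv_cancel] at h3
    have h4 : ∀ᶠ m in atTop, g (n m) * d⁻¹ ∈ ν.U (M + 1) :=
      h3.eventually ((ν.isOpen _).mem_nhds (ν.one _))
    obtain ⟨m, hm1, hm2⟩ := (h4.and (eventually_ge_atTop (M + 2))).exists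
    filter_upwards [eventually_ge_atTop (n m)] with k hk
    have h5 : g k * (g (n m))⁻¹ ∈ ν.U (M + 1) :=
      seq_near' ν hg (by have := hn m; omega) hk
    have h6 := ν.mul M _ h5 _ hm1
    have h7 : g k * (g (n m))⁻¹ * (g (n m) * d⁻¹) = g k * d⁻¹ := by group
    rwa [h7] at h6
  have h3 : Tendsto (fun k => g k * d⁻¹ * d) atTop (𝓝 (1 * d)) := h2.mul_const _
  rw [one_mul] at h3
  refine h3.congr fun k => ?_
  rw [inv_mul_cancel_right]

end Seq

section Main

variable {G X : Type} [TopologicalSpace G] [Group G] [IsTopologicalGroup G] [PolishSpace G]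
  [MeasurableSpace G] [BorelSpace G] [MeasurableSpace X] [StandardBorelSpace X] [MulAction G X]

/-- the two points -/
def pt (x₀ y : X) (b : Bool) : X := if b = true then y else x₀

/-- data coding an embedding of level `c` -/
structure Code (β : Base G) (ν : Nb G) (A : ℕ → Set X) (c : ℕ × ℕ → Bool) (x₀ y : X) (g : ℕ → G)
    (R : ℕ × Bool × ℕ × ℕ → Bool) : Prop where
  near : ∀ n, g (n + 1) * (g n)⁻¹ ∈ ν.U n
  div : ¬ ∃ a, Tendsto g atTop (𝓝 a)
  base : ∀ i b k l, R (i, b, k, l) = true →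
    B0 A (pt x₀ y b) (β.V k) (pt x₀ y !b) (β.V l)
  step : ∀ i b k l, R (i, b, k, l) = true → ∀ j, c (j, i) = true → ∀ k', β.V k' ⊆ β.V k →
    ∃ l', β.V l' ⊆ β.V l ∧ R (j, !b, l', k') = true
  lim : ∀ m, ∃ n₀, ∀ n, n₀ ≤ n → ∀ i, ∃ k l, β.V k ⊆ ν.U m ∧
    (∀ v ∈ β.V l, ∀ v' ∈ β.V l, v * v'⁻¹ ∈ ν.U m) ∧ (∃ v ∈ β.V l, v * (g n)⁻¹ ∈ ν.U m) ∧
      R (i, true, l, k) = true

theorem analytic_code (β : Base G) (ν : Nb G) (hm : Measurable fun p : G × X => p.1 • p.2)
    {A : ℕ → Set X} (hA : ∀ n, MeasurableSet (A n)) :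
    AnalyticSet {c : ℕ × ℕ → Bool | ∃ (x₀ y : X) (g : ℕ → G) (R : ℕ × Bool × ℕ × ℕ → Bool),
      Code β ν A c x₀ y g R} := by
  let Z := (ℕ × ℕ → Bool) × (X × X × (ℕ → G) × (ℕ × Bool × ℕ × ℕ → Bool))
  have hc : ∀ p, Measurable fun z : Z => z.1 p := fun p =>
    (measurable_pi_apply p).comp measurable_fst
  have hx : Measurable fun z : Z => z.2.1 := measurable_fst.comp measurable_snd
  have hy : Measurable fun z : Z => z.2.2.1 :=
    measurable_fst.comp (measurable_snd.comp measurable_snd)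
  have hg : ∀ n, Measurable fun z : Z => z.2.2.2.1 n := fun n =>
    (measurable_pi_apply n).comp
      (measurable_fst.comp (measurable_snd.comp (measurable_snd.comp measurable_snd)))
  have hR : ∀ p, Measurable fun z : Z => z.2.2.2.2 p := fun p =>
    (measurable_pi_apply p).comp
      (measurable_snd.comp (measurable_snd.comp (measurable_snd.comp measurable_snd)))
  have hRs : ∀ p, MeasurableSet {z : Z | z.2.2.2.2 p = true} := fun p =>
    hR p (measurableSet_singleton true)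
  have hcs : ∀ p, MeasurableSet {z : Z | z.1 p = true} := fun p =>
    hc p (measurableSet_singleton true)
  have m1 : MeasurableSet {z : Z | ∀ n, z.2.2.2.1 (n + 1) * (z.2.2.2.1 n)⁻¹ ∈ ν.U n} := by
    rw [ofPred_forall]
    exact MeasurableSet.iInter fun n => ((hg (n + 1)).mul (hg n).inv) (ν.isOpen n).measurableSet
  have m2 : MeasurableSet {z : Z | ¬ ∃ a, Tendsto z.2.2.2.1 atTop (𝓝 a)} :=
    (measurableSet_exists_tendsto (l := atTop) hg).compl
  have m3 : MeasurableSet {z : Z | ∀ i b k l, z.2.2.2.2 (i, b, k, l) = true →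
      B0 A (pt z.2.1 z.2.2.1 b) (β.V k) (pt z.2.1 z.2.2.1 !b) (β.V l)} := by
    simp only [ofPred_forall]
    refine MeasurableSet.iInter fun i => MeasurableSet.iInter fun b => MeasurableSet.iInter fun k =>
      MeasurableSet.iInter fun l => ?_
    refine MeasurableSet.imp (hRs _) ?_
    have h1 := meas_B0 β hm hA (β.isOpen k) (β.isOpen l)
    rcases b with _ | _
    · exact (hx.prodMk hy) h1
    · exact (hy.prodMk hx) h1
  have m4 : MeasurableSet {z : Z | ∀ i b k l, z.2.2.2.2 (i, b, k, l) = true →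
      ∀ j, z.1 (j, i) = true → ∀ k', β.V k' ⊆ β.V k →
        ∃ l', β.V l' ⊆ β.V l ∧ z.2.2.2.2 (j, !b, l', k') = true} := by
    simp only [ofPred_forall]
    refine MeasurableSet.iInter fun i => MeasurableSet.iInter fun b => MeasurableSet.iInter fun k =>
      MeasurableSet.iInter fun l => MeasurableSet.imp (hRs _) ?_
    simp only [ofPred_forall]
    refine MeasurableSet.iInter fun j => MeasurableSet.imp (hcs _) ?_
    simp only [ofPred_forall]
    refine MeasurableSet.iInter fun k' => MeasurableSet.iInter fun _ => ?_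
    simp only [ofPred_exists]
    refine MeasurableSet.iUnion fun l' => ?_
    by_cases h : β.V l' ⊆ β.V l
    · simpa only [h, true_and] using hRs (j, !b, l', k')
    · simp only [h, false_and]
      exact MeasurableSet.const _
  have m5 : MeasurableSet {z : Z | ∀ m, ∃ n₀, ∀ n, n₀ ≤ n → ∀ i, ∃ k l, β.V k ⊆ ν.U m ∧
      (∀ v ∈ β.V l, ∀ v' ∈ β.V l, v * v'⁻¹ ∈ ν.U m) ∧
      (∃ v ∈ β.V l, v * (z.2.2.2.1 n)⁻¹ ∈ ν.U m) ∧ z.2.2.2.2 (i, true, l, k) = true} := by
    simp only [ofPred_forall, ofPred_exists]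
    refine MeasurableSet.iInter fun m => MeasurableSet.iUnion fun n₀ => MeasurableSet.iInter fun n =>
      MeasurableSet.iInter fun _ => MeasurableSet.iInter fun i => MeasurableSet.iUnion fun k =>
        MeasurableSet.iUnion fun l => ?_
    refine (MeasurableSet.const _).inter ((MeasurableSet.const _).inter
      (MeasurableSet.inter ?_ (hRs _)))
    have ho : IsOpen {u : G | ∃ v ∈ β.V l, v * u⁻¹ ∈ ν.U m} := by
      have : {u : G | ∃ v ∈ β.V l, v * u⁻¹ ∈ ν.U m} =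
          ⋃ v ∈ β.V l, {u : G | v * u⁻¹ ∈ ν.U m} := by
        ext u
        simp only [mem_ofPred_eq, mem_iUnion, exists_prop]
      rw [this]
      exact isOpen_biUnion fun v _ => (ν.isOpen m).preimage (continuous_const.mul continuous_inv)
    exact (hg n) ho.measurableSet
  have hall := ((m1.inter m2).inter (m3.inter m4)).inter m5
  have himg := hall.analyticSet_image (f := (Prod.fst : Z → (ℕ × ℕ → Bool))) measurable_fst
  refine (congrArg AnalyticSet ?_).mp himg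
  ext c
  constructor
  · rintro ⟨⟨c', x₀, y, g, R⟩, ⟨⟨⟨h1, h2⟩, ⟨h3, h4⟩⟩, h5⟩, rfl⟩
    exact ⟨x₀, y, g, R, ⟨h1, h2, h3, h4, h5⟩⟩
  · rintro ⟨x₀, y, g, R, h⟩
    exact ⟨(c, x₀, y, g, R), ⟨⟨⟨h.near, h.div⟩, ⟨h.base, h.step⟩⟩, h.lim⟩, rfl⟩

/-- a well-founded relation with a new largest element -/
def top (c : ℕ × ℕ → Bool) : Option ℕ → Option ℕ → Prop
  | some i, some j => c (i, j) = true
  | some _, none => True
  | none, _ => False

theorem top_wf {c : ℕ × ℕ → Bool} (hc : WellFounded (rel c)) : WellFounded (top c) := by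
  have h1 : ∀ i, Acc (top c) (some i) := by
    intro i
    induction i using hc.induction with
    | _ i ih =>
      refine ⟨_, fun j hj => ?_⟩
      rcases j with _ | j
      · exact hj.elim
      · exact ih j hj
  refine ⟨fun a => ?_⟩
  rcases a with _ | i
  · refine ⟨_, fun j hj => ?_⟩
    rcases j with _ | j
    · exact hj.elim
    · exact h1 j
  · exact h1 i

theorem exists_code (β : Base G) (ν : Nb G) (hm : Measurable fun p : G × X => p.1 • p.2)
    (hth : Thin G X) (hunc : ¬ ∃ S : Set X, S.Countable ∧ ∀ x, ∃ s ∈ S, ∃ g : G, g • s = x)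
    {A : ℕ → Set X} (hA : ∀ n, MeasurableSet (A n)) (c : ℕ × ℕ → Bool)
    (hc : WellFounded (rel c)) :
    ∃ (x₀ y : X) (g : ℕ → G) (R : ℕ × Bool × ℕ × ℕ → Bool), Code β ν A c x₀ y g R := by
  classical
  have hr := top_wf hc
  have hcov := fun i m => exists_cover β ν A hr hm hth hA i m
  choose S hSc hSm hScov hSle using hcov
  obtain ⟨x₀, y, g, hg1, hg2, hg3⟩ := core β ν hm hth hunc (⋃ i, ⋃ m, S i m)
    (countable_iUnion fun i => countable_iUnion fun m => hSc i m) (fun s hs => by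
      obtain ⟨i, hi⟩ := mem_iUnion.1 hs
      obtain ⟨m, hm'⟩ := mem_iUnion.1 hi
      exact hSm i m s hm')
  have hle : ∀ i m, ∀ᶠ n in atTop, Le β A hr i x₀ (ν.U (m + 4)) (g n • y) (ν.U m) := by
    intro i m
    obtain ⟨s, hs, hxs⟩ := hScov i m x₀
    filter_upwards [hg2 s (mem_iUnion.2 ⟨i, mem_iUnion.2 ⟨m, hs⟩⟩) hxs] with n hn
    exact hSle i m s hs x₀ hxs _ hn
  refine ⟨x₀, y, g, fun q => decide (Le β A hr (some q.1) (pt x₀ y q.2.1) (β.V q.2.2.1)
    (pt x₀ y !q.2.1) (β.V q.2.2.2)), hg1, hg3, ?_, ?_, ?_⟩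
  · intro i b k l h
    have h1 := of_decide_eq_true h
    rw [Le_iff] at h1
    exact h1.1
  · intro i b k l h j hj k' hk'
    have h1 := of_decide_eq_true h
    rw [Le_iff] at h1
    obtain ⟨l', hl1, hl2⟩ := h1.2 (some j) hj k' hk'
    refine ⟨l', hl1, decide_eq_true ?_⟩
    rw [Bool.not_not]
    exact hl2
  · intro m
    obtain ⟨n₀, hn₀⟩ := eventually_atTop.1 (hle none (m + 1))
    refine ⟨n₀, fun n hn i => ?_⟩
    have h1 := hn₀ n hn
    rw [Le_iff] at h1
    obtain ⟨k, -, hk⟩ := β.base (ν.U (m + 1 + 4)) (ν.isOpen _) 1 (ν.one _)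
    obtain ⟨l, hl1, hl2⟩ := h1.2 (some i) trivial k hk
    obtain ⟨v, hv⟩ := β.ne l
    have ho : IsOpen {u : G | u * (g n)⁻¹ ∈ β.V l} :=
      (β.isOpen l).preimage (continuous_mul_const _)
    obtain ⟨l', -, hl'⟩ := β.base _ ho (v * g n) (by
      show v * g n * (g n)⁻¹ ∈ β.V l
      rwa [mul_inv_cancel_right])
    have h2 := Le.translate β A hr (some i) (g n)⁻¹ (g n • y) (β.V l') (β.V l)
      (fun v hv => hl' hv)
    rw [inv_smul_smul] at h2
    have h3 := Le.trans β A hr _ _ _ _ _ _ _ h2 hl2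
    refine ⟨k, l', hk.trans (ν.anti (by omega)), fun v hv v' hv' => ?_, ?_,
      decide_eq_true h3⟩
    · have h4 := ν.mul m _ (hl1 (hl' hv)) _ (ν.inv _ _ (hl1 (hl' hv')))
      have h5 : v * (g n)⁻¹ * (v' * (g n)⁻¹)⁻¹ = v * v'⁻¹ := by group
      rwa [h5] at h4
    · obtain ⟨v', hv'⟩ := β.ne l'
      exact ⟨v', hv', ν.succ_sub m (hl1 (hl' hv'))⟩

theorem exists_desc {r : ℕ → ℕ → Prop} (h : ¬ WellFounded r) :
    ∃ f : ℕ → ℕ, ∀ n, r (f (n + 1)) (f n) := by
  have h1 : ∃ a, ¬ Acc r a := by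
    by_contra hcon
    push Not at hcon
    exact h ⟨hcon⟩
  obtain ⟨a, ha⟩ := h1
  have h2 : ∀ x : {x // ¬ Acc r x}, ∃ y : {x // ¬ Acc r x}, r y.1 x.1 := by
    rintro ⟨x, hx⟩
    by_contra hcon
    push Not at hcon
    apply hx
    refine ⟨_, fun y hy => ?_⟩
    by_contra hn
    exact hcon ⟨y, hn⟩ hy
  choose F hF using h2
  let T : ℕ → {x // ¬ Acc r x} := fun n => Nat.rec ⟨a, ha⟩ (fun _ x => F x) n
  exact ⟨fun n => (T n).1, fun n => hF (T n)⟩

theorem exists_separating (X : Type) [MeasurableSpace X] [StandardBorelSpace X] :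
    ∃ A : ℕ → Set X, (∀ n, MeasurableSet (A n)) ∧
      ∀ x y : X, (∀ n, x ∈ A n ↔ y ∈ A n) → x = y := by
  let _ := upgradeStandardBorel X
  obtain ⟨b, hbc, -, hb⟩ := TopologicalSpace.exists_countable_basis X
  obtain ⟨A, hA⟩ := (hbc.insert (univ : Set X)).exists_eq_range ⟨univ, mem_insert _ _⟩
  have hAm : ∀ n, A n = univ ∨ A n ∈ b := by
    intro n
    have : A n ∈ insert univ b := by rw [hA]; exact ⟨n, rfl⟩
    exact this
  refine ⟨A, fun n => ?_, fun x y h => ?_⟩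
  · rcases hAm n with h | h
    · rw [h]; exact MeasurableSet.univ
    · exact (hb.isOpen h).measurableSet
  · by_contra hne
    obtain ⟨U, V, hU, -, hxU, hyV, hUV⟩ := t2_separation hne
    obtain ⟨v, hv, hxv, hvU⟩ := hb.exists_subset_of_mem_open hxU hU
    have : v ∈ range A := by rw [← hA]; exact mem_insert_of_mem _ hv
    obtain ⟨n, rfl⟩ := this
    exact disjoint_left.1 hUV (hvU ((h n).1 hxv)) hyV

/-- The dichotomy for actions such that every Cauchy sequence (for the right uniformity) of every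
stabilizer converges. -/
theorem main (hm : Measurable fun p : G × X => p.1 • p.2)
    (hcli : ∀ (x : X) (t : ℕ → G), (∀ n, t n • x = x) →
      (∀ O : Set G, IsOpen O → (1 : G) ∈ O → ∃ N, ∀ m n, N ≤ m → N ≤ n →
        t m * (t n)⁻¹ ∈ O) → ∃ a, Tendsto t atTop (𝓝 a)) :
    (∃ S : Set X, S.Countable ∧ ∀ x, ∃ s ∈ S, ∃ g : G, g • s = x) ∨
      ∃ f : (ℕ → Bool) → X, Measurable f ∧ ∀ x y : ℕ → Bool, x ≠ y → ¬ ∃ g : G, g • f x = f y := by
  by_contra hcon
  push Not at hcon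
  obtain ⟨hunc', hth'⟩ := hcon
  have hunc : ¬ ∃ S : Set X, S.Countable ∧ ∀ x, ∃ s ∈ S, ∃ g : G, g • s = x := by
    rintro ⟨S, hS, h⟩
    obtain ⟨x, hx⟩ := hunc' S hS
    obtain ⟨s, hs, g, hg⟩ := h x
    exact hx s hs g hg
  have hth : Thin G X := by
    rintro ⟨f, hf, h⟩
    obtain ⟨x, y, hxy, g, hg⟩ := hth' f hf
    exact h x y hxy ⟨g, hg⟩
  obtain ⟨β⟩ := exists_base G
  obtain ⟨ν⟩ := exists_nb G
  obtain ⟨A, hA, hsep⟩ := exists_separating X
  obtain ⟨c, ⟨x₀, y, g, R, h⟩, hc⟩ := exists_not_wf _ (analytic_code β ν hm hA)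
    (fun c hc => exists_code β ν hm hth hunc hA c hc.wf)
  obtain ⟨f, hf⟩ := exists_desc hc
  apply h.div
  refine stab_seq ν h.near (x₀ := x₀) (y := y) (fun m => ?_) (hcli x₀)
  obtain ⟨n₀, hn₀⟩ := h.lim (m + 1)
  refine ⟨max m n₀, le_max_left _ _, ?_⟩
  obtain ⟨k, l, hk, hl, ⟨v, hv, hvg⟩, hR⟩ := hn₀ (max m n₀) (le_max_right _ _) (f 0)
  obtain ⟨b, hb, a, ha, hab⟩ := backforth β hm hA hsep (pt x₀ y) (r := rel c)
    (fun i b k l => R (i, b, k, l) = true) (fun i b k l hR => ⟨h.base i b k l hR,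
      fun j hj k' hk' => h.step i b k l hR j hj k' hk'⟩) f hf hR
  refine ⟨a, ν.succ_sub m (hk ha), b, ?_, hab⟩
  have h1 := ν.mul m _ (hl b hb v hv) _ hvg
  have h2 : b * v⁻¹ * (v * (g (max m n₀))⁻¹) = b * (g (max m n₀))⁻¹ := by group
  rwa [h2] at h1

end Main

end Pool.Agent.V8H42.TV
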